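import Pool.Agent.N625.DY.F

/-!
# Joint correlations of the von Mangoldt and Liouville functions with shifts from a context-free language

One Liouville factor is displaced by the integers whose digits, read from left to right, form a correctly nested word
(a Dyck language with arbitrarily many types of brackets and with neutral letters). The set of these integers is not
automatic, and it can contain as few as `N ^ ε` integers below `N`.

Method: the exponential sums over the words are the iterates of a stack machine. They are bounded by a harmonic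
function of the stack; the two ways to return to a stack in two steps (open and close, close and open) cancel each
other at the places where the frequency has a digit which is not extremal. The number of the words is bounded from
below by the ballot numbers. From the starting files: the passage from such exponential sums to correlations
(`Pool.Agent.W93.AU`, `Pool.Agent.R459.LawNear`) and Davenport's theorem (`Pool.Agent.H807R2.Dav`).
-/

set_option autoImplicit false

namespace Pool.Agent.Results.MP_e6fa8b_nt.BracketShifts

open Finset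

/-- `P` is a set of pairs of an opening digit and a closing digit which match each other, `E` is a set of neutral
digits; the digits are smaller than `b`, no digit plays two of the three roles, and there is at least one pair.
(An opening digit can match several closing digits, and conversely.) -/
structure Alphabet (b : ℕ) (P : Finset (ℕ × ℕ)) (E : Finset ℕ) : Prop where
  lt : ∀ p ∈ P, p.1 < b ∧ p.2 < b
  ne : ∀ p ∈ P, ∀ p' ∈ P, p.1 ≠ p'.2
  neutral : ∀ a ∈ E, a < b ∧ ∀ p ∈ P, a ≠ p.1 ∧ a ≠ p.2
  nonempty : P.Nonempty

/-- The correctly nested words: the empty word; a neutral digit followed by a correctly nested word; and `o u c w`,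
where `u` and `w` are correctly nested words and the opening digit `o` matches the closing digit `c`. -/
inductive Balanced (P : Finset (ℕ × ℕ)) (E : Finset ℕ) : List ℕ → Prop
  | nil : Balanced P E []
  | neutral (a : ℕ) (w : List ℕ) : a ∈ E → Balanced P E w → Balanced P E (a :: w)
  | pair (o c : ℕ) (u w : List ℕ) : (o, c) ∈ P → Balanced P E u → Balanced P E w → Balanced P E (o :: (u ++ c :: w))

open Classical in
/-- The integers `v < b ^ k` whose `k` digits in base `b`, from the most significant to the least significant one (the
digit number `i`, `0 ≤ i < k`, from the left is `v / b ^ (k - 1 - i) % b`), form a correctly nested word. -/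
noncomputable def brackets (b : ℕ) (P : Finset (ℕ × ℕ)) (E : Finset ℕ) (k : ℕ) : Finset ℕ :=
  (range (b ^ k)).filter fun v => Balanced P E ((List.range k).map fun i => v / b ^ (k - 1 - i) % b)

/-- The Liouville function on the integers, `0` at the integers `m ≤ 0`, with complex values. -/
noncomputable def lam (m : ℤ) : ℂ := if 1 ≤ m then (-1) ^ ArithmeticFunction.cardFactors m.toNat else 0

/-- All the shifts `y'` at a distance of at most `k ^ W` from `y` satisfy
`|∑ n ≤ x, θ l n * (∏ i, Λ (a l i * n + h l i)) * λ (α l * n + y')| ≤ N / k ^ U` for all `l` and all `x ≤ B N / α l`. -/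
def Small (B U W N k : ℕ) {r L : ℕ} (α : Fin L → ℕ) (a h : Fin L → Fin r → ℕ) (θ : Fin L → ℕ → ℂ) (y : ℤ) : Prop :=
  ∀ y' : ℤ, |y' - y| ≤ (k : ℤ) ^ W → ∀ l, ∀ x : ℕ, α l * x ≤ B * N →
    ‖∑ n ∈ Icc 1 x, θ l n * (∏ i, (ArithmeticFunction.vonMangoldt (a l i * n + h l i) : ℂ)) * lam (α l * n + y')‖ ≤
      N / (k : ℝ) ^ U

lemma bal_iff (P : Finset (ℕ × ℕ)) (E : Finset ℕ) (w : List ℕ) : Balanced P E w ↔ Pool.Agent.N625.DY.Balanced P E w := by
  constructor
  · intro h
    induction h with
    | nil => exact .nil
    | neutral a w h1 _ ih => exact .neutral a w h1 ih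
    | pair o c u w h1 _ _ ih1 ih2 => exact .pair o c u w h1 ih1 ih2
  · intro h
    induction h with
    | nil => exact .nil
    | neutral a w h1 _ ih => exact .neutral a w h1 ih
    | pair o c u w h1 _ _ ih1 ih2 => exact .pair o c u w h1 ih1 ih2

lemma brackets_eq (b : ℕ) (P : Finset (ℕ × ℕ)) (E : Finset ℕ) (k : ℕ) :
    brackets b P E k = Pool.Agent.N625.DY.brackets b P E k := by
  classical
  unfold brackets Pool.Agent.N625.DY.brackets Pool.Agent.N625.DY.word
  ext v
  rw [mem_filter, mem_filter, bal_iff]

lemma lam_eq (m : ℤ) : lam m = (Pool.Agent.R459.Shift.lam m : ℂ) := by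
  unfold lam Pool.Agent.R459.Shift.lam
  split_ifs <;> simp

lemma small_iff (B U W N k : ℕ) {r L : ℕ} (α : Fin L → ℕ) (a h : Fin L → Fin r → ℕ) (θ : Fin L → ℕ → ℂ) (y : ℤ) :
    Small B U W N k α a h θ y ↔ Pool.Agent.N625.DY.Small B U W N k α a h θ y := by
  unfold Small Pool.Agent.N625.DY.Small
  simp only [lam_eq]

open Classical in
/-- Let the matching pairs `P` of digits and the neutral digits `E` in base `b`, and `r`, `κ ≠ 0`, `B`, `T`, `W` and `U` be
fixed. Let `k` be large and let `c` be an integer with `|c| ≤ B b ^ k`. For each of at most `k ^ T` indices `l` let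
`α l ≥ 1`, let `a l i n + h l i` for `i < r` be arbitrary linear forms with non-negative coefficients `≤ b ^ (B k)`, and
let `θ l : ℕ → ℂ` be an arbitrary function bounded by `1` (for example a product of further values of the Liouville
function). Then all the integers `v` whose `k` digits form a correctly nested word, with the exception of a proportion
of at most `1 / k ^ U` of them, have the following property: all the shifts `y'` at a distance of at most `k ^ W` from
`c + κ v` satisfy
`|∑ n ≤ x, θ l n * (∏ i, Λ (a l i * n + h l i)) * λ (α l * n + y')| ≤ b ^ k / k ^ U`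
for all `l` and all `x ≤ B b ^ k / α l`. -/
theorem result (r b : ℕ) (P : Finset (ℕ × ℕ)) (E : Finset ℕ) (hA : Alphabet b P E) (κ : ℤ) (hκ : κ ≠ 0) (B T W U : ℕ) :
    ∃ k₀ : ℕ, ∀ k, k₀ ≤ k → ∀ c : ℤ, |c| ≤ B * (b : ℤ) ^ k →
      ∀ L : ℕ, (L : ℝ) ≤ (k : ℝ) ^ T → ∀ (α : Fin L → ℕ) (a h : Fin L → Fin r → ℕ) (θ : Fin L → ℕ → ℂ),
        (∀ l, 1 ≤ α l) → (∀ l i, a l i ≤ b ^ (B * k) ∧ h l i ≤ b ^ (B * k)) → (∀ l n, ‖θ l n‖ ≤ 1) →
        (((brackets b P E k).filter fun v => ¬ Small B U W (b ^ k) k α a h θ (c + κ * (v : ℕ))).card : ℝ) ≤
          (brackets b P E k).card / (k : ℝ) ^ U := by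
  have hA' : Pool.Agent.N625.DY.Alphabet b P E := ⟨hA.lt, hA.ne, hA.neutral, hA.nonempty⟩
  obtain ⟨k₀, h0⟩ := Pool.Agent.N625.DY.cls_joint (Pool.Agent.N625.DY.br_cls hA' κ hκ) r B T W U
  refine ⟨k₀, fun k hk c hc L hL α a h θ hα hah hθ => ?_⟩
  have h1 := Pool.Agent.N625.DY.br_count k (fun v => Small B U W (b ^ k) k α a h θ (c + κ * (v : ℕ))) (1 / (k : ℝ) ^ U) hA'
    (fun p hp => by
      refine le_trans (le_of_eq ?_) (h0 k hk p hp c hc L hL α a h θ hα hah hθ)
      apply sum_congr rfl
      intro v _
      simp only [small_iff])
  rw [mul_one_div] at h1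
  simp only [brackets_eq]
  exact h1

end Pool.Agent.Results.MP_e6fa8b_nt.BracketShifts
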