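import Pool.Agent.N625.DY.F
import Pool.Agent.N625.DY.M

/-!
# Correlations of the Möbius function with shifts from a context-free language

One Möbius factor is displaced by the integers whose digits, read from left to right, form a correctly nested word
(a Dyck language with arbitrarily many types of brackets and with neutral letters). The set of these integers is not
automatic, and it can contain as few as `N ^ ε` integers below `N`.

Method: the exponential sums over the words are the iterates of a stack machine. They are bounded by a harmonic
function of the stack; the two ways to return to a stack in two steps (open and close, close and open) cancel each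
other at the places where the frequency has a digit which is not extremal. The number of the words is bounded from
below by the ballot numbers. From the starting files: the passage from such exponential sums to correlations
(`Pool.Agent.W93.AU`, `Pool.Agent.R459.LawNear`) and Davenport's theorem (`Pool.Agent.H807R2.Dav`).
-/

set_option autoImplicit false

namespace Pool.Agent.Results.MP_c59857_nt.BracketShifts

open Finset

/-- `P` is a set of pairs of an opening digit and a closing digit which match each other, `E` is a set of neutral
digits; the digits are smaller than `b`, no digit plays two of the three roles, and there is at least one pair.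
(An opening digit can match several closing digits, and conversely.) -/
structure Alphabet (b : ℕ) (P : Finset (ℕ × ℕ)) (E : Finset ℕ) : Prop where
  lt : ∀ p ∈ P, p.1 < b ∧ p.2 < b
  ne : ∀ p ∈ P, ∀ p' ∈ P, p.1 ≠ p'.2
  neutral : ∀ a ∈ E, a < b ∧ ∀ p ∈ P, a ≠ p.1 ∧ a ≠ p.2
  nonempty : P.Nonempty

/-- The correctly nested words: the empty word; a neutral digit followed by a correctly nested word; and `o u c w`,
where `u` and `w` are correctly nested words and the opening digit `o` matches the closing digit `c`. -/
inductive Balanced (P : Finset (ℕ × ℕ)) (E : Finset ℕ) : List ℕ → Prop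
  | nil : Balanced P E []
  | neutral (a : ℕ) (w : List ℕ) : a ∈ E → Balanced P E w → Balanced P E (a :: w)
  | pair (o c : ℕ) (u w : List ℕ) : (o, c) ∈ P → Balanced P E u → Balanced P E w → Balanced P E (o :: (u ++ c :: w))

open Classical in
/-- The integers `v < b ^ k` whose `k` digits in base `b`, from the most significant to the least significant one (the
digit number `i`, `0 ≤ i < k`, from the left is `v / b ^ (k - 1 - i) % b`), form a correctly nested word. -/
noncomputable def brackets (b : ℕ) (P : Finset (ℕ × ℕ)) (E : Finset ℕ) (k : ℕ) : Finset ℕ :=
  (range (b ^ k)).filter fun v => Balanced P E ((List.range k).map fun i => v / b ^ (k - 1 - i) % b)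

/-- The Möbius function on the integers, `0` at the integers `m ≤ 0`, with complex values. -/
noncomputable def mu (m : ℤ) : ℂ := if 1 ≤ m then ((ArithmeticFunction.moebius m.toNat : ℤ) : ℂ) else 0

/-- All the shifts `y'` at a distance of at most `k ^ W` from `y` satisfy
`|∑ n ≤ x, g l n * μ (α l * n + y')| ≤ N / k ^ U` for all `l` and all `x ≤ B N / α l`. -/
def Small (B U W N k : ℕ) {L : ℕ} (α : Fin L → ℕ) (g : Fin L → ℕ → ℂ) (y : ℤ) : Prop :=
  ∀ y' : ℤ, |y' - y| ≤ (k : ℤ) ^ W → ∀ l, ∀ x : ℕ, α l * x ≤ B * N →
    ‖∑ n ∈ Icc 1 x, g l n * mu (α l * n + y')‖ ≤ N / (k : ℝ) ^ U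

lemma bal_iff (P : Finset (ℕ × ℕ)) (E : Finset ℕ) (w : List ℕ) : Balanced P E w ↔ Pool.Agent.N625.DY.Balanced P E w := by
  constructor
  · intro h
    induction h with
    | nil => exact .nil
    | neutral a w h1 _ ih => exact .neutral a w h1 ih
    | pair o c u w h1 _ _ ih1 ih2 => exact .pair o c u w h1 ih1 ih2
  · intro h
    induction h with
    | nil => exact .nil
    | neutral a w h1 _ ih => exact .neutral a w h1 ih
    | pair o c u w h1 _ _ ih1 ih2 => exact .pair o c u w h1 ih1 ih2

lemma brackets_eq (b : ℕ) (P : Finset (ℕ × ℕ)) (E : Finset ℕ) (k : ℕ) :
    brackets b P E k = Pool.Agent.N625.DY.brackets b P E k := by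
  classical
  unfold brackets Pool.Agent.N625.DY.brackets Pool.Agent.N625.DY.word
  ext v
  rw [mem_filter, mem_filter, bal_iff]

open Classical in
/-- Let the matching pairs `P` of digits and the neutral digits `E` in base `b`, and `κ ≠ 0`, `B`, `T`, `W` and `U` be
fixed. Let `k` be large and let `c` be an integer with `|c| ≤ B b ^ k`. For each of at most `k ^ T` indices `l` let
`α l ≥ 1`, and let `g l : ℕ → ℂ` be an arbitrary function bounded by `k ^ T` (for example a product
`∏ i, μ (n + α i) ^ ε i` with arbitrary shifts `α i` and exponents `ε i ∈ {1, 2}`). Then all the integers `v` whose `k`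
digits form a correctly nested word, with the exception of a proportion of at most `1 / k ^ U` of them, have the
following property: all the shifts `y'` at a distance of at most `k ^ W` from `c + κ v` satisfy
`|∑ n ≤ x, g l n * μ (α l * n + y')| ≤ b ^ k / k ^ U` for all `l` and all `x ≤ B b ^ k / α l`. -/
theorem result (b : ℕ) (P : Finset (ℕ × ℕ)) (E : Finset ℕ) (hA : Alphabet b P E) (κ : ℤ) (hκ : κ ≠ 0) (B T W U : ℕ) :
    ∃ k₀ : ℕ, ∀ k, k₀ ≤ k → ∀ c : ℤ, |c| ≤ B * (b : ℤ) ^ k →
      ∀ L : ℕ, (L : ℝ) ≤ (k : ℝ) ^ T → ∀ (α : Fin L → ℕ) (g : Fin L → ℕ → ℂ),
        (∀ l, 1 ≤ α l) → (∀ l n, ‖g l n‖ ≤ (k : ℝ) ^ T) →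
        (((brackets b P E k).filter fun v => ¬ Small B U W (b ^ k) k α g (c + κ * (v : ℕ))).card : ℝ) ≤
          (brackets b P E k).card / (k : ℝ) ^ U := by
  have hA' : Pool.Agent.N625.DY.Alphabet b P E := ⟨hA.lt, hA.ne, hA.neutral, hA.nonempty⟩
  obtain ⟨k₀, h0⟩ := Pool.Agent.N625.DY.cls_mob (Pool.Agent.N625.DY.br_cls hA' κ hκ) B T W U
  refine ⟨k₀, fun k hk c hc L hL α g hα hg => ?_⟩
  have h1 := Pool.Agent.N625.DY.br_count k (fun v => Small B U W (b ^ k) k α g (c + κ * (v : ℕ))) (1 / (k : ℝ) ^ U) hA'
    (fun p hp => h0 k hk p hp c hc L hL α g hα hg)
  rw [mul_one_div] at h1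
  simp only [brackets_eq]
  exact h1

end Pool.Agent.Results.MP_c59857_nt.BracketShifts

/- claim file of this theorem while it was in Results/MP_c59857_nt:
Proves: For fixed matching pairs P and neutral digits E in base b, κ≠0, B, T, W, U and large k: for |c|≤B b^k and at most k^T pairs of α_l≥1 and arbitrary weights g_l bounded by k^T (e.g. products of μ(n+α_i)^(ε_i)), all but a proportion 1/k^U of the integers v with correctly nested k-digit word satisfy |Σ_{n≤x} g_l(n) μ(α_l n+y)| ≤ b^k/k^U for all y within k^W of c+κv, all l and all x≤B b^k/α_l.
Definitions: Alphabet: opening/closing pairs P (nonempty) and neutral digits E, all <b, no digit in two roles. Balanced: the inductively defined correctly nested words (empty; neutral letter then nested; o u c w with (o,c) in P, u, w nested). brackets b P E k: the v<b^k whose k digits from the left form such a word. mu: Möbius function on the integers, 0 at m≤0. Small: the displayed bounds for all shifts near y.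
Relation: Partial answer to Q1: with one Möbius shift running through the integers of a Dyck (context-free) language, a set with as few as N^ε elements below N which is not automatic, and all other factors arbitrary and fixed in advance, the correlation is o(N) for almost all shifts. The starting files have automatic sets, random digits and random sums of scales; the language here is outside of these, and needs a new bound for its exponential sums.

-/
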