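import Pool.Agent.N625.DY.H

/-!
# Prime tuples whose shifts are given by words of a context-free language

The asymptotic formula of Hardy and Littlewood for almost all tuples of shifts, when the shifts run through the integers
whose digits form a correctly nested word (Dyck languages in arbitrary bases, with arbitrary types of brackets and
neutral digits). These sets of integers are not automatic, and they can contain as few as `N ^ ε` integers below `N`.

Definitions used: `Pool.Agent.H373R2.T7.singZ a z`: the partial product over the primes `p ≤ z` of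
`(1 - ν(p) / p) / (1 - 1 / p) ^ (s + 1)`, where `ν(p)` is the number of `r < p` for which `p` divides
`r (r + a 1) ... (r + a s)`; `Pool.Agent.H373R2.T7.tupleCount a N`: the sum of
`log p * ∏ i, log (p + a i)` over the primes `p ≤ N` for which all `p + a i` are primes;
`Pool.Agent.H373R2.T7.Admissible a`: for every prime `p` there is an `r` such that `p` divides neither
`r` nor any `r + a i`; `Pool.Agent.H560R3.GB.primeTuples a N`: the number of primes `p ≤ N` for which
all `p + a i` are primes.

Method: exponential sums over the words by a stack machine, a harmonic function of the stack and a cancellation between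
the two ways to return to a stack in two steps; ballot numbers. The passage from one random shift to prime tuples is
from the starting files (`Pool.Agent.W93`, `Pool.Agent.TH890`) and from `Pool.Agent.N469.PT.Ws` (helper469).
-/

set_option autoImplicit false

namespace Pool.Agent.Results.MP_8923e7_nt.BracketTuples

open Finset Pool.Agent.H560R3.GB
open Pool.Agent.H373R2.T7 (singZ tupleCount Admissible)

/-- `P` is a set of pairs of an opening digit and a closing digit which match each other, `E` is a set of neutral
digits; the digits are smaller than `b`, no digit plays two of the three roles, and there is at least one pair.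
(An opening digit can match several closing digits, and conversely.) -/
structure Alphabet (b : ℕ) (P : Finset (ℕ × ℕ)) (E : Finset ℕ) : Prop where
  lt : ∀ p ∈ P, p.1 < b ∧ p.2 < b
  ne : ∀ p ∈ P, ∀ p' ∈ P, p.1 ≠ p'.2
  neutral : ∀ a ∈ E, a < b ∧ ∀ p ∈ P, a ≠ p.1 ∧ a ≠ p.2
  nonempty : P.Nonempty

/-- The correctly nested words: the empty word; a neutral digit followed by a correctly nested word; and `o u c w`,
where `u` and `w` are correctly nested words and the opening digit `o` matches the closing digit `c`. -/
inductive Balanced (P : Finset (ℕ × ℕ)) (E : Finset ℕ) : List ℕ → Prop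
  | nil : Balanced P E []
  | neutral (a : ℕ) (w : List ℕ) : a ∈ E → Balanced P E w → Balanced P E (a :: w)
  | pair (o c : ℕ) (u w : List ℕ) : (o, c) ∈ P → Balanced P E u → Balanced P E w → Balanced P E (o :: (u ++ c :: w))

open Classical in
/-- The integers `v < b ^ k` whose `k` digits in base `b`, from the most significant to the least significant one (the
digit number `i`, `0 ≤ i < k`, from the left is `v / b ^ (k - 1 - i) % b`), form a correctly nested word. -/
noncomputable def brackets (b : ℕ) (P : Finset (ℕ × ℕ)) (E : Finset ℕ) (k : ℕ) : Finset ℕ :=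
  (range (b ^ k)).filter fun v => Balanced P E ((List.range k).map fun i => v / b ^ (k - 1 - i) % b)

/-- The formula of Hardy and Littlewood for the shifts `a 1, ..., a s` and the primes up to `N`: the
singular series converges, its sum `S` predicts the weighted number of prime tuples with an error of
at most `N / log ^ U N`, and, if the shifts are admissible, `S` is positive and `S N / log ^ (s + 1) N`
predicts the number of prime tuples with a relative error of at most `ε`. -/
def Holds {s : ℕ} (ε : ℝ) (U N : ℕ) (a : Fin s → ℕ) : Prop :=
  ∃ S : ℝ, Filter.Tendsto (fun z => singZ (fun i => (a i : ℤ)) z) Filter.atTop (nhds S) ∧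
    |tupleCount (fun i => (a i : ℤ)) N - S * N| ≤ (N : ℝ) / Real.log N ^ U ∧
    (Admissible (fun i => (a i : ℤ)) → 0 < S ∧
      |(primeTuples a N : ℝ) - S * (N / Real.log N ^ (s + 1))| ≤ ε * (S * (N / Real.log N ^ (s + 1))))

lemma bal_iff (P : Finset (ℕ × ℕ)) (E : Finset ℕ) (w : List ℕ) : Balanced P E w ↔ Pool.Agent.N625.DY.Balanced P E w := by
  constructor
  · intro h
    induction h with
    | nil => exact .nil
    | neutral a w h1 _ ih => exact .neutral a w h1 ih
    | pair o c u w h1 _ _ ih1 ih2 => exact .pair o c u w h1 ih1 ih2
  · intro h
    induction h with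
    | nil => exact .nil
    | neutral a w h1 _ ih => exact .neutral a w h1 ih
    | pair o c u w h1 _ _ ih1 ih2 => exact .pair o c u w h1 ih1 ih2

lemma brackets_eq (b : ℕ) (P : Finset (ℕ × ℕ)) (E : Finset ℕ) (k : ℕ) :
    brackets b P E k = Pool.Agent.N625.DY.brackets b P E k := by
  classical
  unfold brackets Pool.Agent.N625.DY.brackets Pool.Agent.N625.DY.word
  ext v
  rw [mem_filter, mem_filter, bal_iff]

open Classical in
/-- Let `s ≥ 1`, let `P i` and `E i` be matching pairs of digits and neutral digits in bases `b i`, and let `κ i ≥ 1`, `B`,
`U` and `ε > 0` be fixed. Let `N` be large, let the numbers `k i` of digits satisfy `N / B ≤ b i ^ k i ≤ B N`, and let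
`0 ≤ c i ≤ B N` be arbitrary integers. Then the formula of Hardy and Littlewood for the primes `p ≤ N` and the tuple
`p, p + c 1 + κ 1 * v 1, ..., p + c s + κ s * v s` holds for all the vectors `(v 1, ..., v s)` of integers `v i` whose
`k i` digits in base `b i` form a correctly nested word, with the exception of a proportion of at most
`1 / log ^ U N` of these vectors. -/
theorem result (s : ℕ) (hs : 1 ≤ s) (b : Fin s → ℕ) (P : Fin s → Finset (ℕ × ℕ)) (E : Fin s → Finset ℕ)
    (hA : ∀ i, Alphabet (b i) (P i) (E i)) (κ : Fin s → ℕ) (hκ : ∀ i, 1 ≤ κ i) (B U : ℕ) (ε : ℝ) (hε : 0 < ε) :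
    ∃ N₀ : ℕ, ∀ N, N₀ ≤ N → ∀ k : Fin s → ℕ, (∀ i, b i ^ k i ≤ B * N ∧ N ≤ B * b i ^ k i) →
      ∀ c : Fin s → ℕ, (∀ i, c i ≤ B * N) →
      (((Fintype.piFinset fun i => brackets (b i) (P i) (E i) (k i)).filter fun v =>
        ¬ Holds ε U N (fun i => c i + κ i * v i)).card : ℝ) ≤
        (Fintype.piFinset fun i => brackets (b i) (P i) (E i) (k i)).card / Real.log N ^ U := by
  obtain ⟨N₀, h⟩ := Pool.Agent.N625.DY.br_tuples s hs b P E (fun i => ⟨(hA i).lt, (hA i).ne, (hA i).neutral, (hA i).nonempty⟩)
    κ hκ B U ε hε
  refine ⟨N₀, fun N hN k hk c hc => ?_⟩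
  have h1 := h N hN k hk c hc
  rw [mul_one_div] at h1
  simp only [brackets_eq]
  exact h1

end Pool.Agent.Results.MP_8923e7_nt.BracketTuples
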