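import Pool.Agent.N625.PT.W
import Pool.Agent.N625.PT.H

/-!
# Prime values along `x + y = n`: all pairs of linear polynomials at once, for the random integers given by digits

Nothing is used besides Mathlib in the statement: `∑ v ∈ range (b ^ k), (if P v then 0 else p v)` is the probability that
the random integer `v < b ^ k` with the distribution `p` does not have the property `P`.
-/

set_option autoImplicit false

namespace Pool.Agent.Results.MP_0da313_nt.ExchangeableDigitsAllFamilies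
open Finset

/-- The probability, for the distribution `μ` on the words of `k` digits (the integers `v < b ^ k`), that the word begins with
the `i` digits of `u < b ^ i`. -/
noncomputable def begins (b k : ℕ) (μ : ℕ → ℝ) (i u : ℕ) : ℝ := ∑ w ∈ range (b ^ (k - i)), μ (u * b ^ (k - i) + w)

/-- `p` is a probability on the words of `k` digits in base `b`, read as integers `v < b ^ k`. There is another probability
`μ` with `p ≤ k ^ T μ` such that after every beginning `u` two different blocks `a`, `a'` of `L` digits can be exchanged: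
`p (u a w) = r p (u a' w)` for all endings `w`, with a factor `r` between `η` and `1 / η` which does not depend on `w`; and
given the beginning `u`, each of the two blocks comes next with a probability of at least `η` in the distribution `μ`.
(For `T = 0` one has `μ = p`. For the uniform distribution on a set of words `r` is `1`.) -/
structure Exchangeable (b L : ℕ) (η : ℝ) (T k : ℕ) (p : ℕ → ℝ) : Prop where
  nonneg : ∀ v, 0 ≤ p v
  sum : ∑ v ∈ range (b ^ k), p v = 1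
  dominated : ∃ μ : ℕ → ℝ, (∀ v, 0 ≤ μ v) ∧ ∑ v ∈ range (b ^ k), μ v = 1 ∧ (∀ v < b ^ k, p v ≤ (k : ℝ) ^ T * μ v) ∧
    ∀ i u : ℕ, i + L ≤ k → u < b ^ i → ∃ (a a' : ℕ) (r : ℝ), a < a' ∧ a' < b ^ L ∧ η ≤ r ∧ η * r ≤ 1 ∧
      (∀ w < b ^ (k - (i + L)), p ((b ^ L * u + a) * b ^ (k - (i + L)) + w) = r * p ((b ^ L * u + a') * b ^ (k - (i + L)) + w)) ∧
      η * begins b k μ i u ≤ begins b k μ (i + L) (b ^ L * u + a) ∧
      η * begins b k μ i u ≤ begins b k μ (i + L) (b ^ L * u + a')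

/-- `g_n(x) = f(x, n - x)` as a polynomial in `x` -/
noncomputable def gp (f : MvPolynomial (Fin 2) ℤ) (n : ℕ) : Polynomial ℤ :=
  MvPolynomial.aeval ![Polynomial.X, Polynomial.C (n : ℤ) - Polynomial.X] f

/-- The family `f₁, …, f_m` is admissible: for all large `n` all the polynomials `g_{k,n}` are irreducible
in `ℤ[x]` and no prime divides their product at every integer. -/
def Admissible {m : ℕ} (f : Fin m → MvPolynomial (Fin 2) ℤ) : Prop :=
  ∃ N₀ : ℕ, ∀ n : ℕ, N₀ ≤ n → (∀ k, Irreducible (gp (f k) n)) ∧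
    ∀ p : ℕ, p.Prime → ¬ ∀ x : ℤ, (p : ℤ) ∣ (∏ k, gp (f k) n).eval x

/-- all `|f_k(x, y)|` are prime -/
def AllPrime {m : ℕ} (f : Fin m → MvPolynomial (Fin 2) ℤ) (x y : ℤ) : Prop :=
  ∀ k, (MvPolynomial.eval ![x, y] (f k)).natAbs.Prime

open Classical in
/-- The number of the `y₁ < x ≤ y₂` with `0 < x < n` such that all `|f_k(x, n - x)|` are prime. -/
noncomputable def reps {m : ℕ} (f : Fin m → MvPolynomial (Fin 2) ℤ) (n y₁ y₂ : ℕ) : ℕ :=
  ((Ioc y₁ y₂).filter (fun x : ℕ => x < n ∧ AllPrime f x ((n : ℤ) - x))).card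

/-- The family `(u + 2) x + u y + a`, `v x + (v + 2) y + b`. -/
noncomputable def family (u v : ℕ) (a b : ℤ) : Fin 2 → MvPolynomial (Fin 2) ℤ :=
  ![MvPolynomial.C ((u : ℤ) + 2) * MvPolynomial.X 0 + MvPolynomial.C (u : ℤ) * MvPolynomial.X 1 + MvPolynomial.C a,
    MvPolynomial.C (v : ℤ) * MvPolynomial.X 0 + MvPolynomial.C ((v : ℤ) + 2) * MvPolynomial.X 1 + MvPolynomial.C b]

/-- The sum `f₁(x, n - x) + f₂(x, n - x) = (u + v + 2) n + a + b`. -/
def M (u v : ℕ) (a b : ℤ) (n : ℕ) : ℕ := (((u : ℤ) + v + 2) * n + a + b).toNat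

/-- The twin prime constant `∏_{p > 2} (1 - 1 / (p - 1) ^ 2)`, as the infimum of its decreasing partial products. -/
noncomputable def C₂ : ℝ := ⨅ z : ℕ, ∏ p ∈ (Icc 3 z).filter Nat.Prime, (1 - 1 / ((p : ℝ) - 1) ^ 2)

/-- The singular series `2 C₂ ∏_{p ∣ m, p > 2} (p - 1) / (p - 2)` of Goldbach's problem. -/
noncomputable def S (m : ℕ) : ℝ := 2 * C₂ * ∏ p ∈ m.primeFactors.filter (fun p => 2 < p), ((p : ℝ) - 1) / ((p : ℝ) - 2)

/-- The number `n` is good for the family: it is `x + y` with `x, y > 0` and `|f₁(x, y)|`, `|f₂(x, y)|` prime, and the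
number of such `x` is the predicted one up to the factor `1 ± ε` in all windows `(y₁, y₂]` of `[0, n]` of length at least
`n / (log n)^A` (among them the whole interval). -/
def Good (ε : ℝ) (A : ℕ) (u v : ℕ) (a b : ℤ) (n : ℕ) : Prop :=
  (∃ x y : ℕ, 0 < x ∧ 0 < y ∧ x + y = n ∧ AllPrime (family u v a b) x y) ∧
  ∀ y₁ y₂ : ℕ, y₁ < y₂ → y₂ ≤ n → (n : ℝ) / Real.log n ^ A ≤ (y₂ : ℝ) - y₁ →
    |(reps (family u v a b) n y₁ y₂ : ℝ) - S (M u v a b n) * (2 * ((y₂ : ℝ) - y₁) / Real.log (M u v a b n) ^ 2)| ≤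
      ε * (S (M u v a b n) * (2 * ((y₂ : ℝ) - y₁) / Real.log (M u v a b n) ^ 2))

lemma begins_sum (b k : ℕ) (μ : ℕ → ℝ) (i u : ℕ) (hi : i < k) :
    ∑ a ∈ range b, begins b k μ (i + 1) (b * u + a) = begins b k μ i u := by
  unfold begins
  obtain ⟨n, hn⟩ : ∃ n, k - i = n + 1 := ⟨k - i - 1, by omega⟩
  have h1 : k - (i + 1) = n := by omega
  rw [h1, hn, pow_succ, mul_comm (b ^ n) b, Pool.Agent.N625.PT.sum_blocks b (b ^ n)]
  apply sum_congr rfl
  intro a _
  apply sum_congr rfl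
  intro w _
  congr 1
  ring

lemma flex_of {b L T k : ℕ} {η : ℝ} {p : ℕ → ℝ} (hp : Exchangeable b L η T k p) : Pool.Agent.N625.PT.Flex b L η T k p := by
  obtain ⟨h0, h1, μ, m0, m1, m2, m3⟩ := hp
  have hT : (0 : ℝ) ≤ (k : ℝ) ^ T := by positivity
  have hb0 : ∀ i u, 0 ≤ begins b k μ i u := fun i u => sum_nonneg fun w _ => m0 _
  refine ⟨h0, h1, fun i u => (k : ℝ) ^ T * begins b k μ i u, fun i u => mul_nonneg hT (hb0 i u), ?_, ?_, ?_, ?_⟩
  · intro v hv
    refine (m2 v hv).trans (le_of_eq ?_)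
    unfold begins
    simp
  · intro i hi u _
    simp only
    rw [← mul_sum, begins_sum b k μ i u hi]
  · simp only
    have : begins b k μ 0 0 = 1 := by
      unfold begins
      simpa using m1
    rw [this, mul_one]
  · intro i u hi hu
    obtain ⟨a, a', r, q1, q2, q3, q4, q5, q6, q7⟩ := m3 i u hi hu
    refine ⟨a, a', r, q1, q2, q3, q4, q5, ?_, ?_⟩
    · simp only
      calc η * ((k : ℝ) ^ T * begins b k μ i u) = (k : ℝ) ^ T * (η * begins b k μ i u) := by ring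
        _ ≤ _ := mul_le_mul_of_nonneg_left q6 hT
    · simp only
      calc η * ((k : ℝ) ^ T * begins b k μ i u) = (k : ℝ) ^ T * (η * begins b k μ i u) := by ring
        _ ≤ _ := mul_le_mul_of_nonneg_left q7 hT

/-! ### the polynomials -/

lemma gp_zero (u v : ℕ) (a b : ℤ) (n : ℕ) : gp (family u v a b 0) n =
    Polynomial.C 2 * Polynomial.X + Polynomial.C ((u : ℤ) * n + a) := by
  unfold gp family
  simp only [Matrix.cons_val_zero, map_add, map_mul, MvPolynomial.aeval_X, Matrix.cons_val_one,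
    MvPolynomial.aeval_C, Polynomial.algebraMap_eq, Matrix.cons_val_fin_one, map_ofNat]
  ring

lemma gp_one (u v : ℕ) (a b : ℤ) (n : ℕ) : gp (family u v a b 1) n =
    Polynomial.C (-2) * Polynomial.X + Polynomial.C (((v : ℤ) + 2) * n + b) := by
  unfold gp family
  simp only [Matrix.cons_val_zero, map_add, map_mul, MvPolynomial.aeval_X, Matrix.cons_val_one,
    MvPolynomial.aeval_C, Polynomial.algebraMap_eq, Matrix.cons_val_fin_one, map_ofNat, map_neg]
  ring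

lemma ev_zero (u v : ℕ) (a b x y : ℤ) :
    MvPolynomial.eval ![x, y] (family u v a b 0) = (u + 2) * x + u * y + a := by
  unfold family
  simp

lemma ev_one (u v : ℕ) (a b x y : ℤ) :
    MvPolynomial.eval ![x, y] (family u v a b 1) = v * x + (v + 2) * y + b := by
  unfold family
  simp

lemma allPrime_iff (u v : ℕ) (a b x y : ℤ) : AllPrime (family u v a b) x y ↔
    ((u + 2) * x + u * y + a).natAbs.Prime ∧ (v * x + (v + 2) * y + b).natAbs.Prime := by
  unfold AllPrime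
  rw [Fin.forall_fin_two, ev_zero, ev_one]

lemma odd_rel {s : ℤ} (hs : Odd s) : IsRelPrime (2 : ℤ) s := by
  have : IsCoprime (2 : ℤ) s := by
    obtain ⟨t, ht⟩ := hs
    exact ⟨-t, 1, by rw [ht]; ring⟩
  exact this.isRelPrime

theorem admissible (u v : ℕ) (hu : 2 ∣ u) (hv : 2 ∣ v) (a b : ℤ) (ha : Odd a) (hb : Odd b) :
    Admissible (family u v a b) := by
  refine ⟨0, fun n _ => ⟨?_, ?_⟩⟩
  · have h1 : Odd ((u : ℤ) * n + a) := by
      apply Even.add_odd _ ha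
      obtain ⟨w, rfl⟩ := hu
      push_cast
      exact ⟨w * n, by ring⟩
    have h2 : Odd (((v : ℤ) + 2) * n + b) := by
      apply Even.add_odd _ hb
      obtain ⟨w, rfl⟩ := hv
      push_cast
      exact ⟨w * n + n, by ring⟩
    rw [Fin.forall_fin_two, gp_zero, gp_one]
    refine ⟨Polynomial.irreducible_C_mul_X_add_C (by norm_num) (odd_rel h1),
      Polynomial.irreducible_C_mul_X_add_C (by norm_num) ?_⟩
    exact (odd_rel h2).neg_left
  · intro p hp hall
    rw [Fin.prod_univ_two, gp_zero, gp_one] at hall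
    have hall' : ∀ x : ℤ, (p : ℤ) ∣ (2 * x + ((u : ℤ) * n + a)) * (-2 * x + (((v : ℤ) + 2) * n + b)) := by
      intro x
      have := hall x
      simpa only [Polynomial.eval_mul, Polynomial.eval_add, Polynomial.eval_C, Polynomial.eval_X] using this
    obtain ⟨s, hs⟩ : ∃ s, s = (u : ℤ) * n + a := ⟨_, rfl⟩
    obtain ⟨t, ht⟩ : ∃ t, t = ((v : ℤ) + 2) * n + b := ⟨_, rfl⟩
    rw [← hs, ← ht] at hall'
    have hso : Odd s := by
      rw [hs]
      apply Even.add_odd _ ha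
      obtain ⟨w, rfl⟩ := hu
      push_cast
      exact ⟨w * n, by ring⟩
    have hto : Odd t := by
      rw [ht]
      apply Even.add_odd _ hb
      obtain ⟨w, rfl⟩ := hv
      push_cast
      exact ⟨w * n + n, by ring⟩
    have hpp : Prime (p : ℤ) := Nat.prime_iff_prime_int.1 hp
    have hp2 : ¬ (p : ℤ) ∣ 2 := by
      intro h
      have h3 := hall' 0
      have e : (2 * (0 : ℤ) + s) * (-2 * 0 + t) = s * t := by ring
      rw [e] at h3
      have h4 : (p : ℤ) = 2 := by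
        have h5 : p ∣ 2 := by exact_mod_cast h
        have := (Nat.prime_dvd_prime_iff_eq hp Nat.prime_two).1 h5
        exact_mod_cast this
      rw [h4] at h3
      have h6 : Odd (s * t) := hso.mul hto
      exact (Int.not_even_iff_odd.2 h6) (even_iff_two_dvd.2 h3)
    -- three values
    have h0 := hall' 0
    have h1 := hall' 1
    have hm := hall' (-1)
    have h9 : (p : ℤ) ∣ 8 := by
      have e : (8 : ℤ) = 2 * ((2 * 0 + s) * (-2 * 0 + t)) - (2 * 1 + s) * (-2 * 1 + t) -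
          (2 * (-1) + s) * (-2 * (-1) + t) := by ring
      rw [e]
      exact dvd_sub (dvd_sub (Dvd.dvd.mul_left h0 2) h1) hm
    have h10 : (p : ℤ) ∣ 2 ^ 3 := by norm_num; exact h9
    exact hp2 (hpp.dvd_of_dvd_pow h10)

/-! ### growth of logarithms -/

lemma ev_log (C : ℝ) : ∃ n₀ : ℕ, ∀ n : ℕ, n₀ ≤ n → C ≤ Real.log n := by
  have h := (Real.tendsto_log_atTop.comp tendsto_natCast_atTop_atTop).eventually_ge_atTop C
  obtain ⟨n₀, h0⟩ := Filter.eventually_atTop.1 h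
  exact ⟨n₀, fun n hn => h0 n hn⟩

lemma ev_pow (A : ℕ) (C s : ℝ) (hs : 0 < s) : ∃ n₀ : ℕ, ∀ n : ℕ, n₀ ≤ n →
    C * Real.log n ^ A ≤ (n : ℝ) ^ s := by
  have h1 := isLittleO_log_rpow_rpow_atTop (s := s) (A : ℝ) hs
  have h2 := h1.bound (c := 1 / (|C| + 1)) (by positivity)
  have h3 := (tendsto_natCast_atTop_atTop (R := ℝ)).eventually h2
  obtain ⟨n₀, h0⟩ := Filter.eventually_atTop.1 h3
  refine ⟨n₀ + 1, fun n hn => ?_⟩
  have h4 := h0 n (by omega)
  have hn0 : (0 : ℝ) ≤ n := Nat.cast_nonneg n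
  have hl : 0 ≤ Real.log n := Real.log_natCast_nonneg n
  rw [Real.norm_of_nonneg (by positivity), Real.norm_of_nonneg (by positivity), Real.rpow_natCast] at h4
  have h5 : C * Real.log n ^ A ≤ (|C| + 1) * Real.log n ^ A := by
    apply mul_le_mul_of_nonneg_right _ (by positivity)
    linarith [le_abs_self C]
  refine h5.trans ?_
  calc (|C| + 1) * Real.log n ^ A ≤ (|C| + 1) * (1 / (|C| + 1) * (n : ℝ) ^ s) :=
        mul_le_mul_of_nonneg_left h4 (by positivity)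
    _ = (n : ℝ) ^ s := by
        field_simp

/-! ### the windows -/

/-- the sum of the two values -/
lemma M_int (u v : ℕ) (a b : ℤ) (n : ℕ) (hn : a.natAbs + b.natAbs ≤ n) :
    ((M u v a b n : ℕ) : ℤ) = ((u : ℤ) + v + 2) * n + a + b := by
  unfold M
  have h1 : (0 : ℤ) ≤ (u : ℤ) * n := by positivity
  have h2 : (0 : ℤ) ≤ (v : ℤ) * n := by positivity
  have h3 : ((u : ℤ) + v + 2) * n = (u : ℤ) * n + (v : ℤ) * n + 2 * n := by ring
  rw [h3]
  omega

set_option maxHeartbeats 4000000 in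
lemma window (u v : ℕ) (hu : 2 ∣ u) (hv : 2 ∣ v) (a b : ℤ) (ha : Odd a) (hb : Odd b) (n y₁ y₂ : ℕ)
    (h12 : y₁ < y₂) (hy : y₂ ≤ n) (hn : a.natAbs + b.natAbs + 4 ≤ n) :
    ∃ P₁ P₂ : ℕ, P₂ ≤ M u v a b n ∧
      2 * ((y₂ : ℤ) - y₁) - (a.natAbs + b.natAbs) ≤ (P₂ : ℤ) - P₁ ∧
      (P₂ : ℤ) - P₁ ≤ 2 * ((y₂ : ℤ) - y₁) + (a.natAbs + b.natAbs) ∧
      Pool.Agent.W93.PG.cnt (M u v a b n) P₁ P₂ ≤ reps (family u v a b) n y₁ y₂ + 1 ∧
      reps (family u v a b) n y₁ y₂ ≤ Pool.Agent.W93.PG.cnt (M u v a b n) P₁ P₂ + (a.natAbs + b.natAbs) := by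
  classical
  have hM := M_int u v a b n (by omega)
  obtain ⟨U, hU⟩ : ∃ U : ℕ, U = u * n := ⟨_, rfl⟩
  obtain ⟨V, hV⟩ : ∃ V : ℕ, V = v * n := ⟨_, rfl⟩
  have hUe : 2 ∣ U := by rw [hU]; exact Dvd.dvd.mul_right hu n
  have hVe : 2 ∣ V := by rw [hV]; exact Dvd.dvd.mul_right hv n
  have hM' : ((M u v a b n : ℕ) : ℤ) = U + V + 2 * n + a + b := by
    rw [hM, hU, hV]; push_cast; ring
  obtain ⟨m, hm⟩ : ∃ m, m = M u v a b n := ⟨_, rfl⟩
  rw [← hm] at hM' ⊢
  obtain ⟨ta, hta⟩ := ha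
  obtain ⟨tb, htb⟩ := hb
  obtain ⟨U', hU'⟩ := hUe
  obtain ⟨V', hV'⟩ := hVe
  -- the two values
  have hval : ∀ x : ℕ, AllPrime (family u v a b) x ((n : ℤ) - x) ↔
      (2 * (x : ℤ) + U + a).natAbs.Prime ∧ ((V : ℤ) + 2 * n - 2 * x + b).natAbs.Prime := by
    intro x
    rw [allPrime_iff]
    have e1 : ((u : ℤ) + 2) * x + u * ((n : ℤ) - x) + a = 2 * (x : ℤ) + U + a := by
      rw [hU]; push_cast; ring
    have e2 : (v : ℤ) * x + (v + 2) * ((n : ℤ) - x) + b = (V : ℤ) + 2 * n - 2 * x + b := by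
      rw [hV]; push_cast; ring
    rw [e1, e2]
  refine ⟨((U : ℤ) + 2 * y₁ + a).toNat, (min ((U : ℤ) + 2 * y₂ + a) m).toNat, ?_, ?_, ?_, ?_, ?_⟩
  · have := Int.toNat_le_toNat (min_le_right ((U : ℤ) + 2 * y₂ + a) (m : ℤ))
    rwa [Int.toNat_natCast] at this
  · rcases le_total ((U : ℤ) + 2 * y₂ + a) (m : ℤ) with h | h
    · rw [min_eq_left h]; omega
    · rw [min_eq_right h]; omega
  · rcases le_total ((U : ℤ) + 2 * y₂ + a) (m : ℤ) with h | h
    · rw [min_eq_left h]; omega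
    · rw [min_eq_right h]; omega
  · unfold Pool.Agent.W93.PG.cnt reps
    have hins : (insert n ((Ioc y₁ y₂).filter (fun x : ℕ => x < n ∧
        AllPrime (family u v a b) x ((n : ℤ) - x)))).card ≤ ((Ioc y₁ y₂).filter (fun x : ℕ => x < n ∧
        AllPrime (family u v a b) x ((n : ℤ) - x))).card + 1 := card_insert_le _ _
    refine le_trans ?_ hins
    apply card_le_card_of_injOn (fun p : ℕ => (((p : ℤ) - U - a) / 2).toNat)
    · intro p hp
      rw [mem_coe, mem_filter, mem_Ioc] at hp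
      obtain ⟨⟨h1, h2⟩, h3, h4⟩ := hp
      have h3' := h3.pos
      have h4' := h4.pos
      have h5 : (p : ℤ) ≤ (U : ℤ) + 2 * y₂ + a ∧ (p : ℤ) ≤ m := by
        rcases le_total ((U : ℤ) + 2 * y₂ + a) (m : ℤ) with h | h
        · rw [min_eq_left h] at h2; omega
        · rw [min_eq_right h] at h2; omega
      have hmp : m - p + p = m := by omega
      have hmo : m % 2 = 0 := by omega
      have hpo : p % 2 = 1 := by
        rcases h3.eq_two_or_odd with h | h
        · exfalso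
          rcases h4.eq_two_or_odd with h' | h'
          · omega
          · omega
        · exact h
      obtain ⟨x, hx⟩ : ∃ x : ℕ, x = (((p : ℤ) - U - a) / 2).toNat := ⟨_, rfl⟩
      have hx2 : 2 * (x : ℤ) + U + a = p := by omega
      change (((p : ℤ) - U - a) / 2).toNat ∈ (insert n ((Ioc y₁ y₂).filter (fun x : ℕ => x < n ∧
        AllPrime (family u v a b) x ((n : ℤ) - x))) : Finset ℕ)
      rw [← hx, mem_insert, mem_filter, mem_Ioc]
      rcases Nat.lt_or_ge x n with hxn | hxn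
      · right
        refine ⟨⟨by omega, by omega⟩, hxn, (hval x).2 ⟨?_, ?_⟩⟩
        · rw [hx2, Int.natAbs_natCast]; exact h3
        · have e : ((V : ℤ) + 2 * n - 2 * x + b) = ((m - p : ℕ) : ℤ) := by omega
          rw [e, Int.natAbs_natCast]; exact h4
      · left; omega
    · intro p hp p' hp' h
      rw [mem_coe, mem_filter, mem_Ioc] at hp hp'
      obtain ⟨⟨h1, h2⟩, h3, h4⟩ := hp
      obtain ⟨⟨h1', h2'⟩, h3', h4'⟩ := hp'
      have q1 := h3.pos
      have q2 := h4.pos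
      have q1' := h3'.pos
      have q2' := h4'.pos
      have hpo : p % 2 = 1 := by
        rcases h3.eq_two_or_odd with h | h
        · exfalso
          rcases h4.eq_two_or_odd with h' | h'
          · omega
          · omega
        · exact h
      have hpo' : p' % 2 = 1 := by
        rcases h3'.eq_two_or_odd with h | h
        · exfalso
          rcases h4'.eq_two_or_odd with h' | h'
          · omega
          · omega
        · exact h
      simp only at h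
      omega
  · unfold Pool.Agent.W93.PG.cnt reps
    have hsub : ((Ioc y₁ y₂).filter (fun x : ℕ => x < n ∧ AllPrime (family u v a b) x ((n : ℤ) - x))) ⊆
        ((Ioc y₁ y₂).filter (fun x : ℕ => x < n ∧ AllPrime (family u v a b) x ((n : ℤ) - x) ∧
          0 < 2 * (x : ℤ) + U + a ∧ 0 < (V : ℤ) + 2 * n - 2 * x + b)) ∪
        (range a.natAbs ∪ Ioo (n - b.natAbs) n) := by
      intro x hx
      rw [mem_filter, mem_Ioc] at hx
      obtain ⟨⟨h1, h2⟩, h3, h4⟩ := hx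
      rw [mem_union, mem_union, mem_filter, mem_Ioc, mem_range, mem_Ioo]
      by_cases c1 : 0 < 2 * (x : ℤ) + U + a
      · by_cases c2 : 0 < (V : ℤ) + 2 * n - 2 * x + b
        · left; exact ⟨⟨h1, h2⟩, h3, h4, c1, c2⟩
        · right; right; omega
      · right; left; omega
    refine (card_le_card hsub).trans ((card_union_le _ _).trans ?_)
    apply add_le_add
    · apply card_le_card_of_injOn (fun x : ℕ => (2 * (x : ℤ) + U + a).toNat)
      · intro x hx
        rw [mem_coe, mem_filter, mem_Ioc] at hx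
        obtain ⟨⟨h1, h2⟩, h3, h4, h5, h6⟩ := hx
        obtain ⟨g1, g2⟩ := (hval x).1 h4
        obtain ⟨p, hp⟩ : ∃ p : ℕ, p = (2 * (x : ℤ) + U + a).toNat := ⟨_, rfl⟩
        change (2 * (x : ℤ) + U + a).toNat ∈ (((Ioc (((U : ℤ) + 2 * y₁ + a).toNat)
          ((min ((U : ℤ) + 2 * y₂ + a) (m : ℤ)).toNat)).filter
            (fun p => p.Prime ∧ (m - p).Prime) : Finset ℕ) : Set ℕ)
        rw [← hp, mem_coe, mem_filter, mem_Ioc]
        have hp2 : 2 * (x : ℤ) + U + a = p := by omega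
        have g1' : p.Prime := by
          have : (2 * (x : ℤ) + U + a).natAbs = p := by omega
          rwa [this] at g1
        have g2' : (m - p).Prime := by
          have : ((V : ℤ) + 2 * n - 2 * x + b).natAbs = m - p := by omega
          rwa [this] at g2
        refine ⟨⟨by omega, ?_⟩, g1', g2'⟩
        rcases le_total ((U : ℤ) + 2 * y₂ + a) (m : ℤ) with h | h
        · rw [min_eq_left h]; omega
        · rw [min_eq_right h]; omega
      · intro x hx x' hx' h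
        rw [mem_coe, mem_filter, mem_Ioc] at hx hx'
        have h1 := hx.2.2.2.1
        have h2 := hx'.2.2.2.1
        simp only at h
        omega
    · refine (card_union_le _ _).trans ?_
      rw [card_range, Nat.card_Ioo]
      omega

set_option maxHeartbeats 4000000 in
/-- from the windows of Goldbach's problem to the windows of the family -/
lemma good_of (ε : ℝ) (hε : 0 < ε) (A J : ℕ) : ∃ δ : ℝ, 0 < δ ∧ ∃ N₁ : ℕ, ∀ n : ℕ, N₁ ≤ n →
    ∀ u v : ℕ, 2 ∣ u → 2 ∣ v → (u : ℝ) ≤ Real.log n ^ J → (v : ℝ) ≤ Real.log n ^ J → ∀ a b : ℤ, Odd a → Odd b →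
    (a.natAbs : ℝ) ≤ Real.log n ^ J → (b.natAbs : ℝ) ≤ Real.log n ^ J →
      Pool.Agent.W93.PG.WinP δ (A + J + 1) (M u v a b n) → Good ε A u v a b n := by
  obtain ⟨δ, hδdef⟩ : ∃ δ : ℝ, δ = min ε 1 / 8 := ⟨_, rfl⟩
  have hmin : 0 < min ε 1 := lt_min hε one_pos
  have hδ : 0 < δ := by rw [hδdef]; positivity
  have hδ8 : δ ≤ 1 / 8 := by
    rw [hδdef]
    have := min_le_right ε 1
    linarith
  have hδε : 8 * δ ≤ ε := by
    rw [hδdef]
    have := min_le_left ε 1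
    linarith
  obtain ⟨n1, h1⟩ := ev_log (8 / δ + 8)
  obtain ⟨n2, h2⟩ := ev_pow (A + 2 * J + 6) 1 1 (by norm_num)
  refine ⟨δ, hδ, n1 + n2 + 4, fun n hn u v hu hv huJ hvJ a b ha hb haJ hbJ hW => ?_⟩
  have a1 := h1 n (by omega)
  have a2 := h2 n (by omega)
  rw [Real.rpow_one, one_mul] at a2
  obtain ⟨l, hl⟩ : ∃ l, l = Real.log (n : ℝ) := ⟨_, rfl⟩
  rw [← hl] at a1 a2 huJ hvJ haJ hbJ
  have hd0 : 0 < 8 / δ := by positivity
  have hl8 : 8 ≤ l := by linarith
  have hl1 : 1 ≤ l := by linarith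
  have hlpos : 0 < l := by linarith
  have hlδ : 8 ≤ δ * l := by
    have h3 : 8 / δ ≤ l := by linarith
    rw [div_le_iff₀ hδ] at h3
    linarith
  obtain ⟨E, hE⟩ : ∃ E : ℕ, E = a.natAbs + b.natAbs := ⟨_, rfl⟩
  have hlJ : 1 ≤ l ^ J := one_le_pow₀ hl1
  have hE2 : (E : ℝ) ≤ 2 * l ^ J := by rw [hE]; push_cast; linarith
  have hE0 : (0 : ℝ) ≤ E := Nat.cast_nonneg E
  have hbig : l ^ (J + 3) ≤ n := le_trans (pow_le_pow_right₀ hl1 (by omega)) a2
  have hEn : E + 4 ≤ n := by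
    have h3 : (E : ℝ) + 4 ≤ n := by
      refine le_trans ?_ hbig
      have h4 : l ^ (J + 3) = l ^ J * l ^ 3 := pow_add _ _ _
      have h5 : (8 : ℝ) ^ 3 ≤ l ^ 3 := pow_le_pow_left₀ (by norm_num) hl8 3
      rw [h4]
      nlinarith
    exact_mod_cast h3
  obtain ⟨m, hm⟩ : ∃ m, m = M u v a b n := ⟨_, rfl⟩
  have hMint := M_int u v a b n (by omega)
  rw [← hm] at hW hMint
  have hnpos : (0 : ℝ) < n := by exact_mod_cast (by omega : 0 < n)
  have hm2 : n ≤ m := by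
    have h3 : (0 : ℤ) ≤ (u : ℤ) * n := by positivity
    have h4 : (0 : ℤ) ≤ (v : ℤ) * n := by positivity
    have h5 : ((u : ℤ) + v + 2) * n = (u : ℤ) * n + (v : ℤ) * n + 2 * n := by ring
    omega
  have hm1 : (m : ℝ) ≤ 5 * l ^ J * n := by
    have h3 : (m : ℤ) ≤ ((u : ℤ) + v + 2) * n + E := by omega
    have h4 : (m : ℝ) ≤ ((u : ℝ) + v + 2) * n + E := by exact_mod_cast h3
    have h5 : (E : ℝ) ≤ n := by exact_mod_cast (by omega : E ≤ n)
    calc (m : ℝ) ≤ ((u : ℝ) + v + 2) * n + n := by linarith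
      _ = ((u : ℝ) + v + 3) * n := by ring
      _ ≤ (5 * l ^ J) * n := mul_le_mul_of_nonneg_right (by linarith) hnpos.le
  obtain ⟨k, hk⟩ : ∃ k, k = Real.log (m : ℝ) := ⟨_, rfl⟩
  have hkl1 : l ≤ k := by
    rw [hl, hk]
    exact Real.log_le_log hnpos (by exact_mod_cast hm2)
  have hkl2 : k ≤ 2 * l := by
    have h3 : (m : ℝ) ≤ (n : ℝ) ^ 2 := by
      have h4 : 5 * l ^ J ≤ n := by
        refine le_trans ?_ hbig
        have h4 : l ^ (J + 3) = l ^ J * l ^ 3 := pow_add _ _ _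
        have h5 : (8 : ℝ) ^ 3 ≤ l ^ 3 := pow_le_pow_left₀ (by norm_num) hl8 3
        rw [h4]
        nlinarith
      nlinarith
    have h4 := Real.log_le_log (lt_of_lt_of_le hnpos (by exact_mod_cast hm2)) h3
    rw [Real.log_pow] at h4
    push_cast at h4
    rw [hk, hl]
    exact h4
  have hkpos : 0 < k := by linarith
  obtain ⟨s, hs⟩ : ∃ s, s = S m := ⟨_, rfl⟩
  have hs1 : 1 ≤ s := by
    rw [hs]
    exact Pool.Agent.W93.GB.one_le_sing _
  have hs0 : 0 ≤ s := by linarith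
  have key : ∀ y₁ y₂ : ℕ, y₁ < y₂ → y₂ ≤ n → (n : ℝ) / l ^ A ≤ (y₂ : ℝ) - y₁ →
      |(reps (family u v a b) n y₁ y₂ : ℝ) - s * (2 * ((y₂ : ℝ) - y₁) / k ^ 2)| ≤
        6 * δ * (s * (2 * ((y₂ : ℝ) - y₁) / k ^ 2)) := by
    intro y₁ y₂ h12 hy2 hlen
    obtain ⟨P₁, P₂, c1, c2, c2u, c3, c4⟩ := window u v hu hv a b ha hb n y₁ y₂ h12 hy2 (by omega)
    rw [← hm] at c1 c3 c4
    have hEz : (E : ℤ) = a.natAbs + b.natAbs := by rw [hE]; push_cast; rfl
    rw [← hEz] at c2 c2u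
    rw [← hE] at c4
    have c2' : 2 * ((y₂ : ℝ) - y₁) - E ≤ (P₂ : ℝ) - P₁ := by exact_mod_cast c2
    have c2u' : (P₂ : ℝ) - P₁ ≤ 2 * ((y₂ : ℝ) - y₁) + E := by exact_mod_cast c2u
    obtain ⟨D, hD⟩ : ∃ D, D = 2 * ((y₂ : ℝ) - y₁) := ⟨_, rfl⟩
    rw [← hD] at c2' c2u' ⊢
    have hlen' : 2 * ((n : ℝ) / l ^ A) ≤ D := by rw [hD]; linarith
    have hnA : 0 < (n : ℝ) / l ^ A := by positivity
    have hDpos : 0 < D := by linarith
    -- the size of `E`
    have hED : (E : ℝ) + 1 ≤ δ * (D / k ^ 2) := by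
      have f1 : 2 * l ^ J + 1 ≤ δ * ((n : ℝ) / l ^ A / (2 * l ^ 2)) := by
        have g1 : l ^ (J + 4) ≤ (n : ℝ) / l ^ A / (l ^ 2) := by
          rw [le_div_iff₀ (by positivity), le_div_iff₀ (by positivity), ← pow_add, ← pow_add]
          exact le_trans (pow_le_pow_right₀ hl1 (by omega)) a2
        have g2 : (n : ℝ) / l ^ A / (2 * l ^ 2) = ((n : ℝ) / l ^ A / (l ^ 2)) / 2 := by field_simp
        rw [g2]
        have g3 : l ^ (J + 4) = l ^ J * (l ^ 3 * l) := by rw [pow_add]; ring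
        have g4 : (8 : ℝ) ^ 3 ≤ l ^ 3 := pow_le_pow_left₀ (by norm_num) hl8 3
        calc 2 * l ^ J + 1 ≤ 3 * l ^ J := by linarith
          _ ≤ (l ^ J * l ^ 3) * (δ * l) / 2 := by
              have g5 : l ^ J * 8 ^ 3 ≤ l ^ J * l ^ 3 := mul_le_mul_of_nonneg_left g4 (by linarith)
              have g6 : 0 ≤ l ^ J * l ^ 3 := by positivity
              nlinarith
          _ = δ * (l ^ (J + 4) / 2) := by rw [g3]; ring
          _ ≤ δ * (((n : ℝ) / l ^ A / (l ^ 2)) / 2) := by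
              apply mul_le_mul_of_nonneg_left _ hδ.le
              linarith
      have f2 : (n : ℝ) / l ^ A / (2 * l ^ 2) ≤ D / k ^ 2 := by
        rw [div_le_div_iff₀ (by positivity) (by positivity)]
        have g1 : k ^ 2 ≤ (2 * l) ^ 2 := pow_le_pow_left₀ hkpos.le hkl2 2
        calc (n : ℝ) / l ^ A * k ^ 2 ≤ (n : ℝ) / l ^ A * (2 * l) ^ 2 := mul_le_mul_of_nonneg_left g1 hnA.le
          _ = (2 * ((n : ℝ) / l ^ A)) * (2 * l ^ 2) := by ring
          _ ≤ D * (2 * l ^ 2) := mul_le_mul_of_nonneg_right hlen' (by positivity)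
      have f3 := mul_le_mul_of_nonneg_left f2 hδ.le
      linarith
    have hk1 : 1 ≤ k ^ 2 := one_le_pow₀ (by linarith)
    have hDk : D / k ^ 2 ≤ D := div_le_self hDpos.le hk1
    have hDk0 : 0 < D / k ^ 2 := by positivity
    have hED2 : (E : ℝ) ≤ 1 / 8 * D := by
      have g1 : δ * (D / k ^ 2) ≤ 1 / 8 * D := mul_le_mul hδ8 hDk hDk0.le (by norm_num)
      linarith
    have hPP : 7 / 8 * D ≤ (P₂ : ℝ) - P₁ := by linarith
    have hP12 : P₁ < P₂ := by
      have : (P₁ : ℝ) < P₂ := by linarith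
      exact_mod_cast this
    have hwin := hW P₁ P₂ hP12 c1 (by
      rw [← hk]
      refine le_trans ?_ hPP
      rw [div_le_iff₀ (by positivity)]
      have f1 : 2 * (n : ℝ) ≤ D * l ^ A := by
        have : 2 * ((n : ℝ) / l ^ A) = 2 * n / l ^ A := by ring
        rw [this, div_le_iff₀ (by positivity)] at hlen'
        exact hlen'
      have f2 : l ^ (A + J) * l ≤ k ^ (A + J + 1) := by
        rw [← pow_succ]
        exact pow_le_pow_left₀ hlpos.le hkl1 _
      calc (m : ℝ) ≤ 5 * l ^ J * n := hm1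
        _ ≤ 5 * l ^ J * (D * l ^ A / 2) := by
            apply mul_le_mul_of_nonneg_left _ (by positivity)
            linarith
        _ = (5 / 2) * (D * l ^ (A + J)) := by rw [pow_add]; ring
        _ ≤ (7 / 8 * 8) * (D * l ^ (A + J)) := by
            apply mul_le_mul_of_nonneg_right _ (by positivity)
            norm_num
        _ ≤ (7 / 8 * l) * (D * l ^ (A + J)) := by
            apply mul_le_mul_of_nonneg_right _ (by positivity)
            linarith
        _ = 7 / 8 * D * (l ^ (A + J) * l) := by ring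
        _ ≤ 7 / 8 * D * k ^ (A + J + 1) := mul_le_mul_of_nonneg_left f2 (by positivity))
    rw [← hk, mul_div_assoc] at hwin
    have hS' : Pool.Agent.H560R3.GB.sing m = s := by rw [hs]; rfl
    rw [hS'] at hwin
    have c3' : (Pool.Agent.W93.PG.cnt m P₁ P₂ : ℝ) ≤ reps (family u v a b) n y₁ y₂ + 1 := by exact_mod_cast c3
    have c4' : (reps (family u v a b) n y₁ y₂ : ℝ) ≤ Pool.Agent.W93.PG.cnt m P₁ P₂ + E := by exact_mod_cast c4
    obtain ⟨R, hR⟩ : ∃ R, R = ((P₂ : ℝ) - P₁) / k ^ 2 := ⟨_, rfl⟩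
    rw [← hR] at hwin
    have hRD : |R - D / k ^ 2| ≤ δ * (D / k ^ 2) := by
      have e1 : R - D / k ^ 2 = (((P₂ : ℝ) - P₁) - D) / k ^ 2 := by rw [hR]; ring
      rw [e1, abs_div, abs_of_pos (by positivity : 0 < k ^ 2)]
      have e2 : |((P₂ : ℝ) - P₁) - D| ≤ E := by
        rw [abs_le]
        constructor <;> linarith
      refine (div_le_self (abs_nonneg _) hk1).trans (e2.trans ?_)
      linarith
    generalize D / k ^ 2 = T at *
    have hsT : T ≤ s * T := le_mul_of_one_le_left hDk0.le hs1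
    have hsR : |s * R - s * T| ≤ s * (δ * T) := by
      rw [← mul_sub, abs_mul, abs_of_nonneg hs0]
      exact mul_le_mul_of_nonneg_left hRD hs0
    rw [abs_le] at hwin hsR ⊢
    have q1 : δ * (s * R) ≤ δ * (2 * (s * T)) := by
      apply mul_le_mul_of_nonneg_left _ hδ.le
      have : s * (δ * T) ≤ s * T := by
        apply mul_le_mul_of_nonneg_left _ hs0
        nlinarith
      linarith [hsR.2]
    have q2 : s * (δ * T) = δ * (s * T) := by ring
    have q3 : δ * T ≤ δ * (s * T) := mul_le_mul_of_nonneg_left hsT hδ.le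
    constructor
    · linarith [hwin.1, hsR.1]
    · linarith [hwin.2, hsR.2]
  rw [Good, ← hm, ← hl, ← hk, ← hs]
  refine ⟨?_, ?_⟩
  · have h3 := (abs_le.1 (key 0 n (by omega) le_rfl (by
      rw [Nat.cast_zero, sub_zero]
      exact div_le_self hnpos.le (one_le_pow₀ hl1)))).1
    rw [Nat.cast_zero, sub_zero] at h3
    have h4 : 0 < s * (2 * (n : ℝ) / k ^ 2) := by positivity
    have h5 : 6 * δ * (s * (2 * (n : ℝ) / k ^ 2)) ≤ 3 / 4 * (s * (2 * (n : ℝ) / k ^ 2)) :=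
      mul_le_mul_of_nonneg_right (by linarith) h4.le
    have h6 : 0 < (reps (family u v a b) n 0 n : ℝ) := by linarith
    have h7 : 0 < reps (family u v a b) n 0 n := by exact_mod_cast h6
    classical
    unfold reps at h7
    rw [card_pos] at h7
    obtain ⟨x, hx⟩ := h7
    rw [mem_filter, mem_Ioc] at hx
    refine ⟨x, n - x, hx.1.1, by omega, by omega, ?_⟩
    have e : (((n - x : ℕ) : ℤ)) = (n : ℤ) - x := by omega
    rw [e]
    exact hx.2.2
  · intro y₁ y₂ h12 hy2 hlen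
    refine (key y₁ y₂ h12 hy2 hlen).trans ?_
    have h12' : (y₁ : ℝ) < y₂ := by exact_mod_cast h12
    have hpos : 0 ≤ s * (2 * ((y₂ : ℝ) - y₁) / k ^ 2) := by
      apply mul_nonneg hs0
      apply div_nonneg (by linarith) (by positivity)
    exact mul_le_mul_of_nonneg_right (by linarith) hpos

open Classical in
/-- **All linear families of the type considered at once.** The families `f₁ = (u + 2) x + u y + a`,
`f₂ = v x + (v + 2) y + d` (`u`, `v ≥ 0` even, `a`, `d` odd) are admissible. Let `v₀ < b ^ k` be a random integer whose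
distribution `p` has exchangeable blocks of digits. With a probability of at least `1 - 1 / k ^ U` ALL the positive
integers `n ≥ b ^ (k / 2)` with `|n - h q| ≤ k ^ W` for some `q` with `|q - (c + κ v₀)| ≤ k ^ W` and some `1 ≤ h ≤ k ^ J` are
good for ALL the families with `u, v, |a|, |d| ≤ k ^ J`. -/
theorem result (b L : ℕ) (hb : 2 ≤ b) (hL : 1 ≤ L) (η : ℝ) (hη0 : 0 < η) (hη1 : η ≤ 1) (T₀ : ℕ) (κ : ℤ) (hκ : κ ≠ 0)
    (B A J W U : ℕ) (ε : ℝ) (hε : 0 < ε) :
    (∀ u v : ℕ, 2 ∣ u → 2 ∣ v → ∀ a d : ℤ, Odd a → Odd d → Admissible (family u v a d)) ∧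
    ∃ k₀ : ℕ, ∀ k : ℕ, k₀ ≤ k → ∀ p : ℕ → ℝ, Exchangeable b L η T₀ k p → ∀ c : ℤ, |c| ≤ B * (b : ℤ) ^ k →
      ∑ v₀ ∈ range (b ^ k), (if ∀ q : ℤ, |q - (c + κ * v₀)| ≤ (k : ℤ) ^ W → ∀ h : ℕ, 1 ≤ h → h ≤ k ^ J →
        ∀ n : ℕ, b ^ k ≤ n ^ 2 → |(n : ℤ) - h * q| ≤ (k : ℤ) ^ W → ∀ u v : ℕ, 2 ∣ u → 2 ∣ v → u ≤ k ^ J → v ≤ k ^ J →
          ∀ a d : ℤ, Odd a → Odd d → a.natAbs ≤ k ^ J → d.natAbs ≤ k ^ J → Good ε A u v a d n then 0 else p v₀) ≤
        1 / (k : ℝ) ^ U := by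
  refine ⟨fun u v hu hv a d ha hd => admissible u v hu hv a d ha hd, ?_⟩
  obtain ⟨δ, hδ, N₁, hgood⟩ := good_of ε hε A (J + 1)
  obtain ⟨k₀, hmain⟩ := Pool.Agent.N625.PT.t_windows2 (Pool.Agent.N625.PT.flex_tcls b L hb hL η hη0 hη1 T₀ κ hκ) B (2 * J + 3)
    (W + J + 3) (A + (J + 1) + 1) U 0 δ hδ (fun m => Pool.Agent.W93.PG.WinP δ (A + (J + 1) + 1) m) (fun m _ _ h => h)
  obtain ⟨z0, hz0⟩ : ∃ z0 : ℕ, z0 = 4 ^ (J + 1) := ⟨_, rfl⟩
  obtain ⟨k5, h5⟩ := Pool.Agent.N625.PT.pow_le_pow_digits 2 le_rfl (2 * (J + 2))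
  refine ⟨k₀ + z0 + k5 + 2 * N₁ + 4, fun k hk p hp c hc => ?_⟩
  refine hmain k (by omega) p (flex_of hp) c hc (fun v₀ => ∀ q : ℤ, |q - (c + κ * v₀)| ≤ (k : ℤ) ^ W → ∀ h : ℕ, 1 ≤ h → h ≤ k ^ J →
        ∀ n : ℕ, b ^ k ≤ n ^ 2 → |(n : ℤ) - h * q| ≤ (k : ℤ) ^ W → ∀ u v : ℕ, 2 ∣ u → 2 ∣ v → u ≤ k ^ J → v ≤ k ^ J →
          ∀ a d : ℤ, Odd a → Odd d → a.natAbs ≤ k ^ J → d.natAbs ≤ k ^ J → Good ε A u v a d n) ?_
  intro v₀ hv
  push Not at hv
  obtain ⟨q, hq, h, hh1, hh2, n, hn, hnq, u, v, hu, hv', huJ, hvJ, a, d, ha, hd, haJ, hdJ, hbad⟩ := hv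
  have hk4 : 4 ≤ k := by omega
  have hkz : (4 : ℤ) ≤ (k : ℤ) := by exact_mod_cast hk4
  have hkJ1 : 1 ≤ k ^ J := Nat.one_le_pow _ _ (by omega)
  -- `n` is large
  have hn2 : 2 ^ k ≤ n ^ 2 := (Nat.pow_le_pow_left hb k).trans hn
  have hkn : k ^ (J + 2) ≤ n := by
    have h6 := (h5 k (by omega)).trans hn2
    rw [mul_comm 2 (J + 2), pow_mul] at h6
    exact (Nat.pow_le_pow_iff_left (by norm_num)).1 h6
  have hnN : N₁ ≤ n := by
    have h6 : k ≤ k ^ (J + 2) := Nat.le_self_pow (by omega) k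
    omega
  have hn0 : (0 : ℝ) < n := by
    have : 0 < n := by
      have h6 : k ≤ k ^ (J + 2) := Nat.le_self_pow (by omega) k
      omega
    exact_mod_cast this
  have hlog : (k : ℝ) / 4 ≤ Real.log n := by
    have h6 : (2 : ℝ) ^ k ≤ (n : ℝ) ^ 2 := by exact_mod_cast hn2
    have h7 := Real.log_le_log (by positivity) h6
    rw [Real.log_pow, Real.log_pow] at h7
    have h8 : (1 : ℝ) / 2 ≤ Real.log 2 := by have := Real.log_two_gt_d9; linarith
    have h9 : (0 : ℝ) ≤ k := Nat.cast_nonneg k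
    push_cast at h7
    nlinarith
  have hJJ : ((k ^ J : ℕ) : ℝ) ≤ Real.log n ^ (J + 1) := by
    have hk0 : (0 : ℝ) < k := by exact_mod_cast (by omega : 0 < k)
    have h6 : ((4 : ℝ)) ^ (J + 1) ≤ k := by
      have : 4 ^ (J + 1) ≤ k := by rw [← hz0]; omega
      exact_mod_cast this
    calc ((k ^ J : ℕ) : ℝ) = (k : ℝ) ^ J := by push_cast; rfl
      _ ≤ ((k : ℝ) / 4) ^ (J + 1) := by
          rw [div_pow, le_div_iff₀ (by positivity), pow_succ (k : ℝ)]
          exact mul_le_mul_of_nonneg_left h6 (by positivity)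
      _ ≤ Real.log n ^ (J + 1) := pow_le_pow_left₀ (by positivity) hlog _
  have hM := M_int u v a d n (by
    have h6 : k ^ (J + 2) = k ^ J * k ^ 2 := pow_add _ _ _
    have h7 : 2 ≤ k ^ 2 := by nlinarith
    nlinarith)
  have hMpos : (n : ℤ) ≤ (M u v a d n : ℕ) := by
    rw [hM]
    have h3 : (0 : ℤ) ≤ (u : ℤ) * n := by positivity
    have h4 : (0 : ℤ) ≤ (v : ℤ) * n := by positivity
    have h5 : ((u : ℤ) + v + 2) * n = (u : ℤ) * n + (v : ℤ) * n + 2 * n := by ring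
    have h6 : k ^ (J + 2) = k ^ J * k ^ 2 := pow_add _ _ _
    have h7 : 2 ≤ k ^ 2 := by nlinarith
    have h8 : 2 * k ^ J ≤ n := by nlinarith
    omega
  have hnpos : 0 < n := by exact_mod_cast hn0
  obtain ⟨o, ho⟩ : ∃ o : ℤ, o = (n : ℤ) - h * q := ⟨_, rfl⟩
  have hkJz : (1 : ℤ) ≤ (k : ℤ) ^ J := one_le_pow₀ (by linarith)
  have hkWz : (1 : ℤ) ≤ (k : ℤ) ^ W := one_le_pow₀ (by linarith)
  have huz : (u : ℤ) ≤ (k : ℤ) ^ J := by exact_mod_cast huJ
  have hvz : (v : ℤ) ≤ (k : ℤ) ^ J := by exact_mod_cast hvJ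
  have haz : |a| ≤ (k : ℤ) ^ J := by rw [Int.abs_eq_natAbs]; exact_mod_cast haJ
  have hdz : |d| ≤ (k : ℤ) ^ J := by rw [Int.abs_eq_natAbs]; exact_mod_cast hdJ
  have hval : (((u + v + 2) * h : ℕ) : ℤ) * (c + (q - (c + κ * v₀)) + κ * v₀) + (((u : ℤ) + v + 2) * o + (a + d)) = (M u v a d n : ℕ) := by
    rw [hM, ho]
    push_cast
    ring
  refine ⟨(u + v + 2) * h, Nat.mul_pos (by omega) hh1, ?_, q - (c + κ * v₀), ?_, ((u : ℤ) + v + 2) * o + (a + d), ?_, ?_, ?_, ?_⟩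
  · calc (u + v + 2) * h ≤ (4 * k ^ J) * k ^ J := Nat.mul_le_mul (by omega) hh2
      _ ≤ (k * k ^ J) * k ^ J := by gcongr
      _ = k ^ (2 * J + 1) := by rw [two_mul, pow_add, pow_add, pow_one]; ring
      _ ≤ k ^ (2 * J + 3) := Nat.pow_le_pow_right (by omega) (by omega)
  · exact hq.trans (pow_le_pow_right₀ (by linarith) (by omega))
  · rw [← ho] at hnq
    have e1 : |((u : ℤ) + v + 2) * o| ≤ (4 * (k : ℤ) ^ J) * (k : ℤ) ^ W := by
      rw [abs_mul]
      apply mul_le_mul _ hnq (abs_nonneg _) (by positivity)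
      rw [abs_of_nonneg (by positivity)]
      linarith
    have e2 : |a + d| ≤ 2 * (k : ℤ) ^ J := (abs_add_le _ _).trans (by linarith)
    have e3 := abs_add_le (((u : ℤ) + v + 2) * o) (a + d)
    have e4 : (k : ℤ) ^ (W + J + 3) = (k : ℤ) ^ J * (k : ℤ) ^ W * (k : ℤ) ^ 3 := by rw [pow_add, pow_add]; ring
    have e5 : (4 : ℤ) ^ 3 ≤ (k : ℤ) ^ 3 := pow_le_pow_left₀ (by norm_num) hkz 3
    have e6 : (k : ℤ) ^ J ≤ (k : ℤ) ^ J * (k : ℤ) ^ W := le_mul_of_one_le_right (by positivity) hkWz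
    have e7 : (k : ℤ) ^ J * (k : ℤ) ^ W * 64 ≤ (k : ℤ) ^ J * (k : ℤ) ^ W * (k : ℤ) ^ 3 :=
      mul_le_mul_of_nonneg_left (by linarith) (by positivity)
    rw [e4]
    linarith
  · rw [hval]
    omega
  · rw [hval, hM]
    obtain ⟨u', rfl⟩ := hu
    obtain ⟨v', rfl⟩ := hv'
    obtain ⟨a', rfl⟩ := ha
    obtain ⟨d', rfl⟩ := hd
    push_cast
    exact ⟨((u' : ℤ) + v' + 1) * n + a' + d' + 1, by ring⟩
  · rw [hval, Int.toNat_natCast]
    intro hW
    apply hbad
    refine hgood n hnN u v hu hv' ?_ ?_ a d ha hd ?_ ?_ hW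
    · exact le_trans (by exact_mod_cast huJ) hJJ
    · exact le_trans (by exact_mod_cast hvJ) hJJ
    · exact le_trans (by exact_mod_cast haJ) hJJ
    · exact le_trans (by exact_mod_cast hdJ) hJJ

end Pool.Agent.Results.MP_0da313_nt.ExchangeableDigitsAllFamilies
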