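import Pool.Agent.N625.GW.D
import Pool.Agent.N625.DY.I
import Pool.Agent.H560R3.GB.Defs

/-!
# The order of magnitude of the number of Goldbach representations near integers whose digits label walks

Definitions used (in `Pool.Agent.H560R3.GB`): `C₂`: the twin prime constant `∏_{p > 2} (1 - 1 / (p - 1) ^ 2)`; `sing m`: the
singular series `2 C₂ ∏_{p ∣ m, p > 2} (p - 1) / (p - 2)`.

Method: the exponential sum over the walks is dominated by the iterates of the adjacency operator of the graph, whose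
square is diminished on the diagonal at the places where the frequency has a digit which is not extremal; the norms of
these operators on the cyclic space of a vertex are controlled by the number of the closed walks. The passage from such
exponential sums to Goldbach representations in windows is from the starting files (`Pool.Agent.W93`,
`Pool.Agent.TH872.An3`).
-/

set_option autoImplicit false

namespace Pool.Agent.Results.MP_629a14_nt.WalkNeighbourhoods

open Finset Pool.Agent.H560R3.GB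

/-- The digits `a < b` act on the set `X` of the vertices: an edge with the label `a` leads from `x` to `y` if
`δ x a = some y` (at most one edge with the label `a` starts at `x`). The number of the edges from `x` to `y` equals the
number of the edges from `y` to `x`, and at least two edges start at every vertex. The graph may be infinite. -/
structure Graph {X : Type} (b : ℕ) (δ : X → ℕ → Option X) : Prop where
  symm : ∀ x y : X, {a : ℕ | a < b ∧ δ x a = some y}.ncard = {a : ℕ | a < b ∧ δ y a = some x}.ncard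
  two : ∀ x : X, ∃ a a' : ℕ, a < a' ∧ a' < b ∧ (δ x a).isSome ∧ (δ x a').isSome

open Classical in
/-- The integers `v < b ^ k` whose `k` digits in base `b`, from the most significant to the least significant one (the
digit number `i`, `0 ≤ i < k`, from the left is `v / b ^ (k - 1 - i) % b`), are the labels of a walk from `x` to `y`. -/
noncomputable def walks {X : Type} (b : ℕ) (δ : X → ℕ → Option X) (k : ℕ) (x y : X) : Finset ℕ :=
  (range (b ^ k)).filter fun v =>
    ((List.range k).map fun i => v / b ^ (k - 1 - i) % b).foldl (fun s a => s.bind fun z => δ z a) (some x) = some y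

/-- The number of primes `p` with `y₁ < p ≤ y₂` such that `m - p` is a prime. For `y₁ = 0` and `y₂ = m` this is the number of
the ordered representations of `m` as a sum of two primes. -/
def R (m y₁ y₂ : ℕ) : ℕ := ((Ioc y₁ y₂).filter (fun p => p.Prime ∧ (m - p).Prime)).card

/-- In every window `(y₁, y₂]` of a length of at least `m / log ^ A m` with `0 ≤ y₁ < y₂ ≤ m` the number `R` of the primes `p`
such that `m - p` is a prime agrees with `sing m * (y₂ - y₁) / log ^ 2 m` up to a relative error of at most `ε`; and it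
lies between `(1 - ε) C₂` and `1 + ε` times `(m / φ(m)) * (y₂ - y₁) / log ^ 2 m` (for the window `(0, m]` this is
`m ^ 2 / (φ(m) log ^ 2 m)`). -/
def Holds (ε : ℝ) (A m : ℕ) : Prop :=
  ∀ y₁ y₂ : ℕ, y₁ < y₂ → y₂ ≤ m → (m : ℝ) / Real.log m ^ A ≤ (y₂ : ℝ) - y₁ →
    |(R m y₁ y₂ : ℝ) - sing m * ((y₂ : ℝ) - y₁) / Real.log m ^ 2| ≤ ε * (sing m * ((y₂ : ℝ) - y₁) / Real.log m ^ 2) ∧
    (1 - ε) * C₂ * ((m : ℝ) / Nat.totient m * (((y₂ : ℝ) - y₁) / Real.log m ^ 2)) ≤ R m y₁ y₂ ∧
    (R m y₁ y₂ : ℝ) ≤ (1 + ε) * ((m : ℝ) / Nat.totient m * (((y₂ : ℝ) - y₁) / Real.log m ^ 2))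

lemma sing_order (m : ℕ) (hm : 0 < m) (h2 : 2 ∣ m) :
    C₂ * ((m : ℝ) / Nat.totient m) ≤ sing m ∧ sing m ≤ (m : ℝ) / Nat.totient m := by
  obtain ⟨S, hS⟩ : ∃ S, S = m.primeFactors.filter (fun p => 2 < p) := ⟨_, rfl⟩
  have hp3 : ∀ p ∈ S, (3 : ℝ) ≤ p := by
    intro p hp
    rw [hS, mem_filter] at hp
    exact_mod_cast hp.2
  have hC := Pool.Agent.W93.GB.C2_pos
  have e1 : (m : ℝ) / Nat.totient m = 2 * ∏ p ∈ S, (p : ℝ) / ((p : ℝ) - 1) := by
    have h1 := Nat.totient_eq_mul_prod_factors m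
    have h3 : ((Nat.totient m : ℕ) : ℝ) = m * ∏ p ∈ m.primeFactors, (1 - (p : ℝ)⁻¹) := by
      have : ((Nat.totient m : ℚ) : ℝ) = ((m * ∏ p ∈ m.primeFactors, (1 - (p : ℚ)⁻¹) : ℚ) : ℝ) := by rw [h1]
      push_cast at this
      exact this
    have h4 : m.primeFactors = insert 2 S := by
      ext p
      rw [hS, mem_insert, mem_filter]
      constructor
      · intro hp
        have := (Nat.prime_of_mem_primeFactors hp).two_le
        rcases Nat.lt_or_ge 2 p with h | h
        · exact Or.inr ⟨hp, h⟩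
        · exact Or.inl (by omega)
      · rintro (rfl | hp)
        · exact Nat.mem_primeFactors.2 ⟨Nat.prime_two, h2, hm.ne'⟩
        · exact hp.1
    have h5 : (2 : ℕ) ∉ S := by
      rw [hS, mem_filter]
      rintro ⟨_, h⟩
      omega
    have hm0 : (0 : ℝ) < m := by exact_mod_cast hm
    rw [h3, h4, prod_insert h5]
    have h6 : ∏ p ∈ S, (p : ℝ) / ((p : ℝ) - 1) = (∏ p ∈ S, (1 - (p : ℝ)⁻¹))⁻¹ := by
      rw [← prod_inv_distrib]
      apply prod_congr rfl
      intro p hp
      have := hp3 p hp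
      have h7 : (p : ℝ) - 1 ≠ 0 := by linarith
      have h8 : (p : ℝ) ≠ 0 := by linarith
      field_simp
    have h9 : ∏ p ∈ S, (1 - (p : ℝ)⁻¹) ≠ 0 := by
      rw [prod_ne_zero_iff]
      intro p hp
      have := hp3 p hp
      have h8 : (p : ℝ)⁻¹ < 1 := by
        rw [inv_lt_one₀ (by linarith)]
        linarith
      linarith
    rw [h6]
    push_cast
    field_simp
    norm_num
  have e2 : sing m = 2 * C₂ * ∏ p ∈ S, ((p : ℝ) - 1) / ((p : ℝ) - 2) := by rw [hS]; rfl
  constructor
  · rw [e1, e2]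
    have : ∏ p ∈ S, (p : ℝ) / ((p : ℝ) - 1) ≤ ∏ p ∈ S, ((p : ℝ) - 1) / ((p : ℝ) - 2) := by
      apply prod_le_prod
      · intro p hp
        have := hp3 p hp
        apply div_nonneg <;> linarith
      · intro p hp
        have := hp3 p hp
        rw [div_le_div_iff₀ (by linarith) (by linarith)]
        nlinarith
    calc C₂ * (2 * ∏ p ∈ S, (p : ℝ) / ((p : ℝ) - 1)) = 2 * C₂ * ∏ p ∈ S, (p : ℝ) / ((p : ℝ) - 1) := by ring
      _ ≤ _ := mul_le_mul_of_nonneg_left this (by positivity)
  · rw [e1, e2]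
    have h3 : C₂ ≤ ∏ p ∈ S, (1 - 1 / ((p : ℝ) - 1) ^ 2) := by
      refine (Pool.Agent.W93.GB.C2_le m).trans ?_
      have hsub : S ⊆ (Icc 3 m).filter Nat.Prime := by
        intro p hp
        rw [hS, mem_filter] at hp
        rw [mem_filter, mem_Icc]
        exact ⟨⟨hp.2, Nat.le_of_dvd hm (Nat.dvd_of_mem_primeFactors hp.1)⟩, Nat.prime_of_mem_primeFactors hp.1⟩
      have hfac : ∀ p ∈ (Icc 3 m).filter Nat.Prime, 0 ≤ 1 - 1 / ((p : ℝ) - 1) ^ 2 ∧ 1 - 1 / ((p : ℝ) - 1) ^ 2 ≤ 1 := by
        intro p hp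
        rw [mem_filter, mem_Icc] at hp
        have h4 : (3 : ℝ) ≤ p := by exact_mod_cast hp.1.1
        have h5 : (1 : ℝ) ≤ ((p : ℝ) - 1) ^ 2 := by nlinarith
        have h6 : 1 / ((p : ℝ) - 1) ^ 2 ≤ 1 := by rw [div_le_one (by positivity)]; exact h5
        have h7 : 0 ≤ 1 / ((p : ℝ) - 1) ^ 2 := by positivity
        exact ⟨by linarith, by linarith⟩
      have h4 : Pool.Agent.W93.GB.Pz m = ∏ p ∈ (Icc 3 m).filter Nat.Prime, (1 - 1 / ((p : ℝ) - 1) ^ 2) := rfl
      rw [h4, ← prod_sdiff hsub]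
      have h5 : ∏ p ∈ (Icc 3 m).filter Nat.Prime \ S, (1 - 1 / ((p : ℝ) - 1) ^ 2) ≤ 1 :=
        prod_le_one (fun p hp => (hfac p (mem_sdiff.1 hp).1).1) (fun p hp => (hfac p (mem_sdiff.1 hp).1).2)
      have h6 : 0 ≤ ∏ p ∈ S, (1 - 1 / ((p : ℝ) - 1) ^ 2) := prod_nonneg fun p hp => (hfac p (hsub hp)).1
      calc _ ≤ 1 * ∏ p ∈ S, (1 - 1 / ((p : ℝ) - 1) ^ 2) := mul_le_mul_of_nonneg_right h5 h6
        _ = _ := one_mul _
    have h4 : (∏ p ∈ S, (1 - 1 / ((p : ℝ) - 1) ^ 2)) * ∏ p ∈ S, ((p : ℝ) - 1) / ((p : ℝ) - 2) = ∏ p ∈ S, (p : ℝ) / ((p : ℝ) - 1) := by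
      rw [← prod_mul_distrib]
      apply prod_congr rfl
      intro p hp
      have := hp3 p hp
      have h7 : (p : ℝ) - 1 ≠ 0 := by linarith
      have h8 : (p : ℝ) - 2 ≠ 0 := by linarith
      field_simp
      ring
    have h5 : 0 ≤ ∏ p ∈ S, ((p : ℝ) - 1) / ((p : ℝ) - 2) := by
      apply prod_nonneg
      intro p hp
      have := hp3 p hp
      apply div_nonneg <;> linarith
    have h6 := mul_le_mul_of_nonneg_right h3 h5
    rw [h4] at h6
    linarith

lemma holds_of (ε : ℝ) (hε : 0 < ε) (A : ℕ) : ∃ m₀ : ℕ, ∀ m : ℕ, m₀ ≤ m → 2 ∣ m →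
    Pool.Agent.W93.PG.WinP (min ε 1) A m → Holds ε A m := by
  refine ⟨3, fun m hm h2 hwin y₁ y₂ h12 hy2 hΔ => ?_⟩
  have h := hwin y₁ y₂ h12 hy2 hΔ
  have hR : Pool.Agent.W93.PG.cnt m y₁ y₂ = R m y₁ y₂ := rfl
  rw [hR] at h
  obtain ⟨s1, s2⟩ := sing_order m (by omega) h2
  have hs := Pool.Agent.W93.GB.one_le_sing m
  have hC := Pool.Agent.W93.GB.C2_pos
  have hm3 : (3 : ℝ) ≤ m := by exact_mod_cast hm
  have hlog : 0 < Real.log m := Real.log_pos (by linarith)
  have hd : (0 : ℝ) < (y₂ : ℝ) - y₁ := by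
    have : (y₁ : ℝ) < y₂ := by exact_mod_cast h12
    linarith
  obtain ⟨z, hz⟩ : ∃ z : ℝ, z = ((y₂ : ℝ) - y₁) / Real.log m ^ 2 := ⟨_, rfl⟩
  have hz0 : 0 < z := by rw [hz]; positivity
  have e1 : sing m * ((y₂ : ℝ) - y₁) / Real.log m ^ 2 = sing m * z := by rw [hz, mul_div_assoc]
  rw [e1] at h ⊢
  rw [← hz]
  obtain ⟨η, hη⟩ : ∃ η, η = min ε 1 := ⟨_, rfl⟩
  have hη1 : η ≤ ε := by rw [hη]; exact min_le_left _ _
  have hη2 : η ≤ 1 := by rw [hη]; exact min_le_right _ _
  have hη0 : 0 < η := by rw [hη]; exact lt_min hε one_pos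
  rw [← hη] at h
  have hsz : 0 < sing m * z := by positivity
  have hq : C₂ * ((m : ℝ) / Nat.totient m) * z ≤ sing m * z := mul_le_mul_of_nonneg_right s1 hz0.le
  have hq2 : sing m * z ≤ (m : ℝ) / Nat.totient m * z := mul_le_mul_of_nonneg_right s2 hz0.le
  have hq0 : 0 < (m : ℝ) / Nat.totient m * z := by linarith
  refine ⟨h.trans (mul_le_mul_of_nonneg_right hη1 hsz.le), ?_, ?_⟩
  · rw [abs_le] at h
    have h3 := h.1
    have h4 : (1 - η) * (C₂ * ((m : ℝ) / Nat.totient m) * z) ≤ (1 - η) * (sing m * z) := mul_le_mul_of_nonneg_left hq (by linarith)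
    have h5 : (1 - ε) * (C₂ * ((m : ℝ) / Nat.totient m) * z) ≤ (1 - η) * (C₂ * ((m : ℝ) / Nat.totient m) * z) := by
      apply mul_le_mul_of_nonneg_right (by linarith)
      have : C₂ * ((m : ℝ) / Nat.totient m) * z = C₂ * ((m : ℝ) / Nat.totient m * z) := by ring
      rw [this]
      positivity
    have h6 : (1 - ε) * C₂ * ((m : ℝ) / Nat.totient m * z) = (1 - ε) * (C₂ * ((m : ℝ) / Nat.totient m) * z) := by ring
    rw [h6]
    linarith
  · rw [abs_le] at h
    have h3 := h.2
    have h4 : (1 + η) * (sing m * z) ≤ (1 + ε) * ((m : ℝ) / Nat.totient m * z) :=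
      mul_le_mul (by linarith) hq2 hsz.le (by linarith)
    linarith

open Classical in
/-- Let `δ` be a graph whose edges are labelled with the digits in base `b`, let `x` be a vertex, and let `ρ > 0` be such
that there are at most `ρ ^ (2 n)` closed walks of the length `2 n` at `x`, for all `n`. Let `D`, `κ ≠ 0`, `B`, `A`, `W`, `U`
and `ε > 0` be fixed. Let `k` be large, let `y` be a vertex such that the number of the walks of the length `k` from `x` to
`y` is at least `ρ ^ k / k ^ D`, and let `c` be an arbitrary integer with `|c| ≤ B b ^ k`. Then all the integers `v` whose `k`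
digits are the labels of a walk from `x` to `y`, with the exception of a proportion of at most `1 / k ^ U` of them, have the
following property: for every positive even integer `m` at a distance of at most `k ^ W` from `c + κ v` the number of its
representations as a sum of two primes lies between `(1 - ε) C₂` and `1 + ε` times `m ^ 2 / (φ(m) log ^ 2 m)`, and the
numbers of the representations with one prime in a given window are as predicted by Hardy and Littlewood, up to a
relative error of at most `ε`, and satisfy the analogous inequalities, for all windows of a length of at least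
`m / log ^ A m`.

(For a group of polynomial growth, a free group, or any group with the property of rapid decay, there are at least
`ρ ^ k / k ^ D` closed walks of every even length `k` in the Cayley graph, where `ρ` is its spectral radius.) -/
theorem result (b : ℕ) (X : Type) (δ : X → ℕ → Option X) (hG : Graph b δ) (x : X) (ρ : ℝ) (hρ : 0 < ρ)
    (hR : ∀ n : ℕ, ((walks b δ (2 * n) x x).card : ℝ) ≤ ρ ^ (2 * n)) (D : ℕ) (κ : ℤ) (hκ : κ ≠ 0) (B A W U : ℕ)
    (ε : ℝ) (hε : 0 < ε) :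
    ∃ k₀ : ℕ, ∀ k : ℕ, k₀ ≤ k → ∀ y : X, ρ ^ k / (k : ℝ) ^ D ≤ (walks b δ k x y).card → ∀ c : ℤ, |c| ≤ B * (b : ℤ) ^ k →
      (((walks b δ k x y).filter fun v => ¬ ∀ m : ℤ, |m - (c + κ * (v : ℕ))| ≤ (k : ℤ) ^ W →
        (0 < m ∧ Even m → Holds ε A m.toNat)).card : ℝ) ≤ (walks b δ k x y).card / (k : ℝ) ^ U := by
  obtain ⟨m₀, hm⟩ := holds_of ε hε A
  obtain ⟨Q, hQ⟩ : ∃ Q : ℤ → Prop, Q = fun m => (0 < m ∧ Even m → Holds ε A m.toNat) := ⟨_, rfl⟩
  obtain ⟨k₀, h0⟩ := Pool.Agent.N625.DY.cls_gold (Pool.Agent.N625.GW.w_cls (δ := δ) ⟨hG.symm, hG.two⟩ x ρ hρ hR D κ hκ) B A W U m₀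
    (min ε 1) (lt_min hε (by norm_num)) (Holds ε A) hm Q (fun y hy => by
      rw [hQ] at hy
      push Not at hy
      exact ⟨hy.1.1, hy.1.2, hy.2⟩)
  refine ⟨k₀ + 1, fun k hk y hy c hc => ?_⟩
  have hk1 : (0 : ℝ) < (k : ℝ) ^ D := by
    have : (0 : ℝ) < k := by exact_mod_cast (by omega : 0 < k)
    positivity
  have hy' : ρ ^ k ≤ (k : ℝ) ^ D * (walks b δ k x y).card := by
    rw [div_le_iff₀ hk1, mul_comm] at hy
    exact hy
  have h1 := Pool.Agent.N625.GW.w_count k x y ρ hρ D hy' (fun v => ∀ m : ℤ, |m - (c + κ * (v : ℕ))| ≤ (k : ℤ) ^ W → Q m)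
    (1 / (k : ℝ) ^ U) (fun p hp => h0 k (by omega) p hp c hc)
  rw [mul_one_div] at h1
  rw [hQ] at h1
  exact h1

end Pool.Agent.Results.MP_629a14_nt.WalkNeighbourhoods
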