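import Pool.Agent.N625.DY.L

/-!
# Differences of two primes near the integers given by words of a context-free language

Definition used (in `Pool.Agent.H560R3.GB`): `C₂`: the twin prime constant `∏_{p > 2} (1 - 1 / (p - 1) ^ 2)` (the infimum
of the partial products).

Method: exponential sums over the correctly nested words by a stack machine, a harmonic function of the stack and a
cancellation between the two ways to return to a stack in two steps; ballot numbers. The passage from such exponential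
sums to prime pairs is from the starting files (`Pool.Agent.TH872.Mir.dd_law`, `Pool.Agent.W93.PP`).
-/

set_option autoImplicit false

namespace Pool.Agent.Results.MP_70e905_nt.BracketDifferences

open Finset Pool.Agent.H560R3.GB

/-- `P` is a set of pairs of an opening digit and a closing digit which match each other, `E` is a set of neutral
digits; the digits are smaller than `b`, no digit plays two of the three roles, and there is at least one pair.
(An opening digit can match several closing digits, and conversely.) -/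
structure Alphabet (b : ℕ) (P : Finset (ℕ × ℕ)) (E : Finset ℕ) : Prop where
  lt : ∀ p ∈ P, p.1 < b ∧ p.2 < b
  ne : ∀ p ∈ P, ∀ p' ∈ P, p.1 ≠ p'.2
  neutral : ∀ a ∈ E, a < b ∧ ∀ p ∈ P, a ≠ p.1 ∧ a ≠ p.2
  nonempty : P.Nonempty

/-- The correctly nested words: the empty word; a neutral digit followed by a correctly nested word; and `o u c w`,
where `u` and `w` are correctly nested words and the opening digit `o` matches the closing digit `c`. -/
inductive Balanced (P : Finset (ℕ × ℕ)) (E : Finset ℕ) : List ℕ → Prop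
  | nil : Balanced P E []
  | neutral (a : ℕ) (w : List ℕ) : a ∈ E → Balanced P E w → Balanced P E (a :: w)
  | pair (o c : ℕ) (u w : List ℕ) : (o, c) ∈ P → Balanced P E u → Balanced P E w → Balanced P E (o :: (u ++ c :: w))

open Classical in
/-- The integers `v < b ^ k` whose `k` digits in base `b`, from the most significant to the least significant one (the
digit number `i`, `0 ≤ i < k`, from the left is `v / b ^ (k - 1 - i) % b`), form a correctly nested word. -/
noncomputable def brackets (b : ℕ) (P : Finset (ℕ × ℕ)) (E : Finset ℕ) (k : ℕ) : Finset ℕ :=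
  (range (b ^ k)).filter fun v => Balanced P E ((List.range k).map fun i => v / b ^ (k - 1 - i) % b)

/-- The number of primes `p` with `p + d ≤ X` such that `p + d` is a prime. -/
def pairs (d X : ℕ) : ℕ := ((range (X + 1)).filter fun p => p.Prime ∧ (p + d).Prime ∧ p + d ≤ X).card

/-- The prediction of Hardy and Littlewood: `2 C₂ ∏_{p ∣ d, p > 2} (p - 1) / (p - 2)` times the integral of
`1 / log ^ 2 t` from `2` to `X`. -/
noncomputable def main (d X : ℕ) : ℝ :=
  2 * C₂ * (∏ p ∈ d.primeFactors.filter (fun p => 2 < p), ((p : ℝ) - 1) / ((p : ℝ) - 2)) * ∫ t in (2 : ℝ)..X, 1 / Real.log t ^ 2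

/-- Every even `d > 0` with `D ≤ d ≤ D + (log X) ^ A` is a difference of two primes `≤ X`, and the number of the pairs is
`main d X` with an error of at most `X / (log X) ^ C`. -/
def Holds (A C X D : ℕ) : Prop :=
  ∀ d : ℕ, D ≤ d → (d : ℝ) ≤ D + Real.log X ^ A → 0 < d → Even d →
    (∃ p q : ℕ, p.Prime ∧ q.Prime ∧ p = q + d ∧ p ≤ X) ∧ |(pairs d X : ℝ) - main d X| ≤ X / Real.log X ^ C

lemma bal_iff (P : Finset (ℕ × ℕ)) (E : Finset ℕ) (w : List ℕ) : Balanced P E w ↔ Pool.Agent.N625.DY.Balanced P E w := by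
  constructor
  · intro h
    induction h with
    | nil => exact .nil
    | neutral a w h1 _ ih => exact .neutral a w h1 ih
    | pair o c u w h1 _ _ ih1 ih2 => exact .pair o c u w h1 ih1 ih2
  · intro h
    induction h with
    | nil => exact .nil
    | neutral a w h1 _ ih => exact .neutral a w h1 ih
    | pair o c u w h1 _ _ ih1 ih2 => exact .pair o c u w h1 ih1 ih2

lemma brackets_eq (b : ℕ) (P : Finset (ℕ × ℕ)) (E : Finset ℕ) (k : ℕ) :
    brackets b P E k = Pool.Agent.N625.DY.brackets b P E k := by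
  classical
  unfold brackets Pool.Agent.N625.DY.brackets Pool.Agent.N625.DY.word
  ext v
  rw [mem_filter, mem_filter, bal_iff]

lemma holds_of (A C : ℕ) : ∃ X₀ : ℕ, ∀ X : ℕ, X₀ ≤ X → ∀ D : ℕ, Pool.Agent.W93.PP.GoodD A 0 (C + 3) X D → Holds A C X D := by
  obtain ⟨n1, h1⟩ := Pool.Agent.H373R2.T7.ev_L' 5
  obtain ⟨n2, h2⟩ := Pool.Agent.H373R2.T7.ev_log' 4 1
  refine ⟨n1 + n2 + 40, fun X hX D hgood d hd1 hd2 hd0 hdev => ?_⟩
  have a1 := h1 X (by omega)
  have a2 := h2 X (by omega)
  rw [one_mul] at a2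
  obtain ⟨δ, hδ⟩ := Nat.exists_eq_add_of_le hd1
  have hX40 : (40 : ℝ) ≤ X := by exact_mod_cast (by omega : 40 ≤ X)
  have hX0 : (0 : ℝ) < X := by linarith
  obtain ⟨L, hL⟩ : ∃ L, L = Real.log (X : ℝ) := ⟨_, rfl⟩
  unfold Pool.Agent.W93.PP.GoodD at hgood
  rw [← hL] at a1 a2 hd2 hgood
  have hL1 : 1 ≤ L := by linarith
  have hL0 : 0 < L := by linarith
  subst hδ
  have hδL : (δ : ℝ) ≤ L ^ A := by
    push_cast at hd2 ⊢
    linarith
  have h3 := hgood δ 1 0 hδL le_rfl (by simp) (Nat.coprime_one_right 0) (Nat.coprime_one_right _) hdev.two_dvd hd0.ne' X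
    (by linarith) le_rfl
  have e1 : Pool.Agent.W93.PP.pc (D + δ) X 0 1 = pairs (D + δ) X := by
    unfold Pool.Agent.W93.PP.pc pairs
    rw [Nat.floor_natCast]
    congr 1
    ext p
    rw [mem_filter, mem_filter]
    constructor
    · rintro ⟨q1, q2, q3, q4, _⟩
      exact ⟨q1, q2, q3, by exact_mod_cast q4⟩
    · rintro ⟨q1, q2, q3, q4⟩
      exact ⟨q1, q2, q3, by exact_mod_cast q4, Nat.modEq_one⟩
  have e2 : Pool.Agent.W93.PP.Cnt 1 (D + δ) = 1 := by
    unfold Pool.Agent.W93.PP.Cnt
    rw [range_one, filter_true_of_mem]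
    · rfl
    · intro x _
      exact ⟨Nat.coprime_one_right _, Nat.coprime_one_right _⟩
  have e3 : main (D + δ) X = sing (D + δ) * Pool.Agent.W93.PP.Li2 X := by
    unfold main sing Pool.Agent.W93.PP.Li2
    ring
  rw [e1, e2, Nat.cast_one, div_one, ← e3] at h3
  have hLi : (X : ℝ) / L ^ 2 - 1 - 3 ≤ Pool.Agent.W93.PP.Li2 X := by
    have q1 := Pool.Agent.W93.PP.sum_int X (by linarith)
    rw [abs_le, Nat.floor_natCast] at q1
    have q2 : ((X : ℝ) - 1) * (1 / L ^ 2) ≤ ∑ n ∈ Icc 2 X, 1 / Real.log (n : ℝ) ^ 2 := by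
      have q3 : ∀ n ∈ Icc 2 X, 1 / L ^ 2 ≤ 1 / Real.log (n : ℝ) ^ 2 := by
        intro n hn
        rw [mem_Icc] at hn
        have q4 : 0 < Real.log n := Real.log_pos (by exact_mod_cast (by omega : 1 < n))
        apply one_div_le_one_div_of_le (by positivity)
        apply pow_le_pow_left₀ q4.le
        rw [hL]
        apply Real.log_le_log (by exact_mod_cast (by omega : 0 < n))
        exact_mod_cast hn.2
      refine le_trans (le_of_eq ?_) (card_nsmul_le_sum _ _ _ q3)
      rw [Nat.card_Icc, nsmul_eq_mul]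
      congr 1
      rw [Nat.cast_sub (by omega)]
      push_cast
      ring
    have q5 : ((X : ℝ) - 1) * (1 / L ^ 2) = X / L ^ 2 - 1 / L ^ 2 := by ring
    have q6 : 1 / L ^ 2 ≤ 1 := by
      rw [div_le_one (by positivity)]
      exact one_le_pow₀ hL1
    linarith [q1.1, q1.2]
  have hs := Pool.Agent.W93.GB.one_le_sing (D + δ)
  have hmain : (X : ℝ) / L ^ 2 - 4 ≤ main (D + δ) X := by
    have q0 : (0 : ℝ) ≤ X / L ^ 2 - 4 := by
      have q1 : L ^ 2 ≤ √(X : ℝ) := le_trans (pow_le_pow_right₀ hL1 (by norm_num)) a2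
      have q2 : √(X : ℝ) * √(X : ℝ) = X := Real.mul_self_sqrt hX0.le
      have q3 : 0 < L ^ 2 := by positivity
      rw [sub_nonneg, le_div_iff₀ q3]
      nlinarith
    rw [e3]
    nlinarith
  have herr : (X : ℝ) / L ^ (C + 3) ≤ X / L ^ C := by
    apply div_le_div_of_nonneg_left hX0.le (by positivity)
    exact pow_le_pow_right₀ hL1 (by omega)
  refine ⟨?_, h3.trans (by rw [hL] at herr ⊢; exact herr)⟩
  have hpos : (0 : ℝ) < pairs (D + δ) X := by
    have q1 := (abs_le.1 h3).1
    have q2 : (X : ℝ) / L ^ (C + 3) ≤ X / L ^ 3 := by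
      apply div_le_div_of_nonneg_left hX0.le (by positivity)
      exact pow_le_pow_right₀ hL1 (by omega)
    have q3 : (X : ℝ) / L ^ 3 * 5 ≤ X / L ^ 2 := by
      have : (X : ℝ) / L ^ 2 = X / L ^ 3 * L := by field_simp
      rw [this]
      exact mul_le_mul_of_nonneg_left a1 (by positivity)
    have q4 : 4 < (X : ℝ) / L ^ 3 * 4 := by
      have q5 : L ^ 3 * L ≤ √(X : ℝ) := by
        calc L ^ 3 * L = L ^ 4 := by ring
          _ ≤ _ := a2
      have q6 : √(X : ℝ) * √(X : ℝ) = X := Real.mul_self_sqrt hX0.le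
      have q7 : 0 < L ^ 3 := by positivity
      have q8 : 1 < (X : ℝ) / L ^ 3 := by
        rw [lt_div_iff₀ q7, one_mul]
        have q9 : L ^ 3 * 5 ≤ √(X : ℝ) := (mul_le_mul_of_nonneg_left a1 q7.le).trans q5
        have q10 : 1 ≤ L ^ 3 := one_le_pow₀ hL1
        nlinarith
      linarith
    have q9 : (X : ℝ) / L ^ (C + 3) < (X : ℝ) / L ^ 2 - 4 := by linarith
    linarith
  have hpos' : 0 < pairs (D + δ) X := by exact_mod_cast hpos
  unfold pairs at hpos'
  rw [card_pos] at hpos'
  obtain ⟨p, hp⟩ := hpos'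
  rw [mem_filter] at hp
  exact ⟨p + (D + δ), p, hp.2.2.1, hp.2.1, rfl, hp.2.2.2⟩

open Classical in
/-- Let the matching pairs `P` of digits and the neutral digits `E` in base `b`, and `κ ≠ 0`, `B`, `A`, `C`, `U` and `W` be
fixed and let `k` be large. Let `X` be a number with `b ^ k (log X) ^ (C + 9) ≤ X ≤ b ^ k (log X) ^ W`, and let `c` be an
arbitrary integer with `|c| ≤ B b ^ k`. Then all the integers `v` whose `k` digits form a correctly nested word, with the
exception of a proportion of at most `1 / k ^ U` of them, have the following property: if `D = c + κ v` is positive, then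
every even `d` with `D ≤ d ≤ D + (log X) ^ A` is a difference of two primes `≤ X`, and the number of the representations
is as predicted by Hardy and Littlewood, with an error of at most `X / (log X) ^ C`. -/
theorem result (b : ℕ) (P : Finset (ℕ × ℕ)) (E : Finset ℕ) (hA : Alphabet b P E) (κ : ℤ) (hκ : κ ≠ 0) (B A C U W : ℕ) :
    ∃ k₀ : ℕ, ∀ k : ℕ, k₀ ≤ k →
      ∀ X : ℕ, b ^ k ≤ X → (b : ℝ) ^ k * Real.log X ^ (C + 9) ≤ X → (X : ℝ) ≤ (b : ℝ) ^ k * Real.log X ^ W →
      ∀ c : ℤ, |c| ≤ B * (b : ℤ) ^ k →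
      (((brackets b P E k).filter fun v => ¬ (0 < c + κ * (v : ℕ) → Holds A C X (c + κ * (v : ℕ)).toNat)).card : ℝ) ≤
        (brackets b P E k).card / (k : ℝ) ^ U := by
  have hA' : Pool.Agent.N625.DY.Alphabet b P E := ⟨hA.lt, hA.ne, hA.neutral, hA.nonempty⟩
  obtain ⟨X₀, hX⟩ := holds_of A C
  obtain ⟨k₀, h0⟩ := Pool.Agent.N625.DY.cls_pairs (Pool.Agent.N625.DY.br_clsV hA' κ hκ) B U A 0 (C + 3) W
  refine ⟨k₀ + X₀, fun k hk X hX0 hX1 hX2 c hc => ?_⟩
  have hb := Pool.Agent.N625.DY.two_le hA'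
  have hXX : X₀ ≤ X := by
    have : k < b ^ k := Nat.lt_pow_self (by omega)
    omega
  obtain ⟨Q, hQ⟩ : ∃ Q : ℤ → Prop, Q = fun y => (0 < y → Holds A C X y.toNat) := ⟨_, rfl⟩
  have h1 := Pool.Agent.N625.DY.br_count k (fun v => Q (c + κ * (v : ℕ)))
    (1 / (k : ℝ) ^ U) hA' (fun p hp => h0 k (by omega) X hX0 hX1 hX2 p hp c hc Q (fun y hy => by
      rw [hQ] at hy
      push Not at hy
      exact ⟨hy.1, fun hG => hy.2 (hX X hXX _ hG)⟩))
  rw [mul_one_div] at h1
  simp only [brackets_eq]
  rw [hQ] at h1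
  refine le_trans (le_of_eq ?_) h1
  congr!

end Pool.Agent.Results.MP_70e905_nt.BracketDifferences
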