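import Pool.Agent.N625.DY.Q

/-!
# Products of many consecutive Liouville values and of values at nested distances

The distances run independently through the integers whose digits, read from left to right, form a correctly nested word
(Dyck languages with arbitrarily many types of brackets and with neutral letters). The set of these integers is not
automatic, and it can contain as few as `N ^ ε` integers below `N`.

Method: the exponential sums over the words are the iterates of a stack machine. They are bounded by a harmonic
function of the stack; the two ways to return to a stack in two steps (open and close, close and open) cancel each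
other at the places where the frequency has a digit which is not extremal. The number of the words is bounded from
below by the ballot numbers. From the starting files: the passage from such exponential sums to correlations
(`Pool.Agent.W93.AU`, `Pool.Agent.R459.LawNear`) and Davenport's theorem (`Pool.Agent.H807R2.Dav`).
-/

set_option autoImplicit false

namespace Pool.Agent.Results.MP_a14ce1_nt.NestedDistances

open Finset

/-- `P` is a set of pairs of an opening digit and a closing digit which match each other, `E` is a set of neutral
digits; the digits are smaller than `b`, no digit plays two of the three roles, and there is at least one pair.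
(An opening digit can match several closing digits, and conversely.) -/
structure Alphabet (b : ℕ) (P : Finset (ℕ × ℕ)) (E : Finset ℕ) : Prop where
  lt : ∀ p ∈ P, p.1 < b ∧ p.2 < b
  ne : ∀ p ∈ P, ∀ p' ∈ P, p.1 ≠ p'.2
  neutral : ∀ a ∈ E, a < b ∧ ∀ p ∈ P, a ≠ p.1 ∧ a ≠ p.2
  nonempty : P.Nonempty

/-- The correctly nested words: the empty word; a neutral digit followed by a correctly nested word; and `o u c w`,
where `u` and `w` are correctly nested words and the opening digit `o` matches the closing digit `c`. -/
inductive Balanced (P : Finset (ℕ × ℕ)) (E : Finset ℕ) : List ℕ → Prop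
  | nil : Balanced P E []
  | neutral (a : ℕ) (w : List ℕ) : a ∈ E → Balanced P E w → Balanced P E (a :: w)
  | pair (o c : ℕ) (u w : List ℕ) : (o, c) ∈ P → Balanced P E u → Balanced P E w → Balanced P E (o :: (u ++ c :: w))

open Classical in
/-- The integers `v < b ^ k` whose `k` digits in base `b`, from the most significant to the least significant one (the
digit number `i`, `0 ≤ i < k`, from the left is `v / b ^ (k - 1 - i) % b`), form a correctly nested word. -/
noncomputable def brackets (b : ℕ) (P : Finset (ℕ × ℕ)) (E : Finset ℕ) (k : ℕ) : Finset ℕ :=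
  (range (b ^ k)).filter fun v => Balanced P E ((List.range k).map fun i => v / b ^ (k - 1 - i) % b)

/-- The Liouville function on the integers, `0` at the integers `m ≤ 0`. -/
def lam (m : ℤ) : ℤ := if 1 ≤ m then (-1) ^ ArithmeticFunction.cardFactors m.toNat else 0

/-- For all the vectors `h'` of integers with `|h' i - h i| ≤ k ^ W`, all nonempty sets `I` of indices, all `r ≤ k ^ T`, all
`l`, and all `x` with `a i * x ≤ B N` for `i ∈ I`:
`|∑ n ≤ x, θ l n * λ n * λ (n + 1) ⋯ λ (n + r - 1) * ∏ i ∈ I, λ (a i * n + h' i)| ≤ N / k ^ U`. -/
def Chowla (B T U W N k : ℕ) {s L : ℕ} (a : Fin s → ℕ) (θ : Fin L → ℕ → ℂ) (h : Fin s → ℤ) : Prop :=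
  ∀ h' : Fin s → ℤ, (∀ i, |h' i - h i| ≤ (k : ℤ) ^ W) → ∀ I : Finset (Fin s), I.Nonempty → ∀ r : ℕ, r ≤ k ^ T → ∀ l, ∀ x : ℕ,
    (∀ i ∈ I, a i * x ≤ B * N) →
    ‖∑ n ∈ Icc 1 x, θ l n * (∏ j ∈ range r, (lam (n + j) : ℂ)) * ∏ i ∈ I, (lam (a i * n + h' i) : ℂ)‖ ≤ N / (k : ℝ) ^ U

lemma bal_iff (P : Finset (ℕ × ℕ)) (E : Finset ℕ) (w : List ℕ) : Balanced P E w ↔ Pool.Agent.N625.DY.Balanced P E w := by
  constructor
  · intro h
    induction h with
    | nil => exact .nil
    | neutral a w h1 _ ih => exact .neutral a w h1 ih
    | pair o c u w h1 _ _ ih1 ih2 => exact .pair o c u w h1 ih1 ih2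
  · intro h
    induction h with
    | nil => exact .nil
    | neutral a w h1 _ ih => exact .neutral a w h1 ih
    | pair o c u w h1 _ _ ih1 ih2 => exact .pair o c u w h1 ih1 ih2

lemma brackets_eq (b : ℕ) (P : Finset (ℕ × ℕ)) (E : Finset ℕ) (k : ℕ) :
    brackets b P E k = Pool.Agent.N625.DY.brackets b P E k := by
  classical
  unfold brackets Pool.Agent.N625.DY.brackets Pool.Agent.N625.DY.word
  ext v
  rw [mem_filter, mem_filter, bal_iff]

open Classical in
/-- Let `P i` and `E i`, for `i < s`, be matching pairs of digits and neutral digits in base `b`, and let `κ i ≠ 0`, `B`, `T`,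
`W` and `U` be fixed. Let `k` be large, let `c i` be integers with `|c i| ≤ B b ^ k`, let `a i ≥ 1` be arbitrary, and let
`θ l` be at most `k ^ T` arbitrary functions bounded by `1`. Then all the vectors `v` of integers `v i` whose `k` digits form a
correctly nested word, with the exception of a proportion of at most `1 / k ^ U` of them, have the following property: for
all the vectors `h` of integers with `|h i - (c i + κ i v i)| ≤ k ^ W`, all nonempty sets `I` of indices and all
`r ≤ k ^ T`,
`|∑ n ≤ x, θ l n * λ n * λ (n + 1) ⋯ λ (n + r - 1) * ∏ i ∈ I, λ (a i * n + h i)| ≤ b ^ k / k ^ U` for all `l` and all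
`x ≤ B b ^ k / max (a i, i ∈ I)`. -/
theorem result (s b : ℕ) (P : Fin s → Finset (ℕ × ℕ)) (E : Fin s → Finset ℕ) (hA : ∀ i, Alphabet b (P i) (E i))
    (κ : Fin s → ℤ) (hκ : ∀ i, κ i ≠ 0) (B T W U : ℕ) :
    ∃ k₀ : ℕ, ∀ k : ℕ, k₀ ≤ k → ∀ c : Fin s → ℤ, (∀ i, |c i| ≤ B * (b : ℤ) ^ k) →
      ∀ a : Fin s → ℕ, (∀ i, 1 ≤ a i) → ∀ L : ℕ, (L : ℝ) ≤ (k : ℝ) ^ T → ∀ θ : Fin L → ℕ → ℂ, (∀ l n, ‖θ l n‖ ≤ 1) →
      (((Fintype.piFinset fun i => brackets b (P i) (E i) k).filter fun v =>
        ¬ Chowla B T U W (b ^ k) k a θ (fun i => c i + κ i * (v i : ℕ))).card : ℝ) ≤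
        (Fintype.piFinset fun i => brackets b (P i) (E i) k).card / (k : ℝ) ^ U := by
  obtain ⟨k₀, h0⟩ := Pool.Agent.N625.DY.br_chowla s b P E (fun i => ⟨(hA i).lt, (hA i).ne, (hA i).neutral, (hA i).nonempty⟩)
    κ hκ B T W U
  refine ⟨k₀, fun k hk c hc a ha L hL θ hθ => ?_⟩
  simp only [brackets_eq]
  exact h0 k hk c hc L hL a θ ha hθ

end Pool.Agent.Results.MP_a14ce1_nt.NestedDistances

/-
Claim file of this former hand-in (MP_a14ce1_nt.NestedDistances, helper625), moved here by helper675 with
his consent (ask 15449) in exchange for MP_a14ce1_nt.FixedShiftPatterns: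

Proves: Fix s, a base b, matching pairs P_i and neutral digits E_i (i<s), κ_i≠0, B, T, W, U; k large; |c_i|≤B b^k, a_i≥1, at most k^T weights θ_l bounded by 1. For all but a proportion 1/k^U of the vectors v of integers v_i with correctly nested k-digit words: |Σ_{n≤x} θ_l(n) λ(n)λ(n+1)…λ(n+r-1) ∏_{i∈I} λ(a_i n+h_i)| ≤ b^k/k^U for all h_i within k^W of c_i+κ_i v_i, all nonempty I, all r≤k^T, all l, and all x with a_i x≤B b^k (i∈I).
Definitions: Alphabet: opening/closing pairs P (nonempty) and neutral digits E, all <b, no digit in two roles. Balanced: the inductively defined correctly nested words (empty; neutral letter then nested; o u c w with (o,c) in P, u, w nested). brackets b P E k: the v<b^k whose k digits from the left form such a word. lam: Liouville function, 0 at m≤0. Chowla: the displayed bounds.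
Relation: Partial answer to Q1: cancellation, with log-power savings, in products of up to k^T consecutive Liouville values times values at distances from Dyck (context-free) languages, for almost all vectors of such distances and all subsets of them; at least one value lies at a generic nested distance, so S_k itself is not settled. These sets may have only N^ε elements below N and are not automatic; the starting files have blocks, Hamming spheres and automatic sets of distances.
-/
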