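import Pool.Agent.N625.GW.D

/-!
# Joint correlations of the von Mangoldt and Liouville functions with shifts whose digits label walks in infinite graphs

One Liouville factor is displaced by the integers whose digits are the labels of the walks between two vertices of a
graph, for example of the Cayley graph of a group: then these are the integers whose digits spell a given element of the
group (for a free group one obtains the two-sided Dyck languages). Such a set can contain as few as `N ^ ε` integers
below `N`, and in general it is neither automatic nor given by a context-free grammar.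

Method: the exponential sum over the walks is dominated by the iterates of the adjacency operator of the graph, whose
square is diminished on the diagonal at the places where the frequency has a digit which is not extremal (the two loops
`x → z → x` and `x → z' → x` cancel each other partially); the norms of these operators on the cyclic space of a vertex
are controlled by the number of the closed walks, by the Cauchy-Schwarz inequality alone. From the starting files: the
passage from such exponential sums to correlations (`Pool.Agent.W93.AU`, `Pool.Agent.R459.LawNear`) and Davenport's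
theorem (`Pool.Agent.H807R2.Dav`).
-/

set_option autoImplicit false

namespace Pool.Agent.Results.MP_e6fa8b_nt.WalkShifts

open Finset

/-- The digits `a < b` act on the set `X` of the vertices: an edge with the label `a` leads from `x` to `y` if
`δ x a = some y` (at most one edge with the label `a` starts at `x`). The number of the edges from `x` to `y` equals the
number of the edges from `y` to `x`, and at least two edges start at every vertex. The graph may be infinite. -/
structure Graph {X : Type} (b : ℕ) (δ : X → ℕ → Option X) : Prop where
  symm : ∀ x y : X, {a : ℕ | a < b ∧ δ x a = some y}.ncard = {a : ℕ | a < b ∧ δ y a = some x}.ncard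
  two : ∀ x : X, ∃ a a' : ℕ, a < a' ∧ a' < b ∧ (δ x a).isSome ∧ (δ x a').isSome

open Classical in
/-- The integers `v < b ^ k` whose `k` digits in base `b`, from the most significant to the least significant one (the
digit number `i`, `0 ≤ i < k`, from the left is `v / b ^ (k - 1 - i) % b`), are the labels of a walk from `x` to `y`. -/
noncomputable def walks {X : Type} (b : ℕ) (δ : X → ℕ → Option X) (k : ℕ) (x y : X) : Finset ℕ :=
  (range (b ^ k)).filter fun v =>
    ((List.range k).map fun i => v / b ^ (k - 1 - i) % b).foldl (fun s a => s.bind fun z => δ z a) (some x) = some y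

/-- The Liouville function on the integers, `0` at the integers `m ≤ 0`, with complex values. -/
noncomputable def lam (m : ℤ) : ℂ := if 1 ≤ m then (-1) ^ ArithmeticFunction.cardFactors m.toNat else 0

/-- All the shifts `y'` at a distance of at most `k ^ W` from `y` satisfy
`|∑ n ≤ x, θ l n * (∏ i, Λ (a l i * n + h l i)) * λ (α l * n + y')| ≤ N / k ^ U` for all `l` and all `x ≤ B N / α l`. -/
def Small (B U W N k : ℕ) {r L : ℕ} (α : Fin L → ℕ) (a h : Fin L → Fin r → ℕ) (θ : Fin L → ℕ → ℂ) (y : ℤ) : Prop :=
  ∀ y' : ℤ, |y' - y| ≤ (k : ℤ) ^ W → ∀ l, ∀ x : ℕ, α l * x ≤ B * N →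
    ‖∑ n ∈ Icc 1 x, θ l n * (∏ i, (ArithmeticFunction.vonMangoldt (a l i * n + h l i) : ℂ)) * lam (α l * n + y')‖ ≤
      N / (k : ℝ) ^ U

lemma lam_eq (m : ℤ) : lam m = (Pool.Agent.R459.Shift.lam m : ℂ) := by
  unfold lam Pool.Agent.R459.Shift.lam
  split_ifs <;> simp

lemma small_iff (B U W N k : ℕ) {r L : ℕ} (α : Fin L → ℕ) (a h : Fin L → Fin r → ℕ) (θ : Fin L → ℕ → ℂ) (y : ℤ) :
    Small B U W N k α a h θ y ↔ Pool.Agent.N625.DY.Small B U W N k α a h θ y := by
  unfold Small Pool.Agent.N625.DY.Small
  simp only [lam_eq]

open Classical in
/-- Let `δ` be a graph whose edges are labelled with the digits in base `b`, let `x` be a vertex, and let `ρ > 0` be such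
that there are at most `ρ ^ (2 n)` closed walks of the length `2 n` at `x`, for all `n`. Let `D`, `r`, `κ ≠ 0`, `B`, `T`, `W`
and `U` be fixed. Let `k` be large, let `z` be a vertex such that the number of the walks of the length `k` from `x` to
`z` is at least `ρ ^ k / k ^ D`, and let `c` be an integer with `|c| ≤ B b ^ k`. For each of at most `k ^ T` indices `l` let
`α l ≥ 1`, let `a l i n + h l i` for `i < r` be arbitrary linear forms with non-negative coefficients `≤ b ^ (B k)`, and
let `θ l : ℕ → ℂ` be an arbitrary function bounded by `1` (for example a product of further values of the Liouville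
function). Then all the integers `v` whose `k` digits are the labels of a walk from `x` to `z`, with the exception of a
proportion of at most `1 / k ^ U` of them, have the following property: all the shifts `y'` at a distance of at most `k ^ W`
from `c + κ v` satisfy
`|∑ n ≤ X, θ l n * (∏ i, Λ (a l i * n + h l i)) * λ (α l * n + y')| ≤ b ^ k / k ^ U`
for all `l` and all `X ≤ B b ^ k / α l`.

(For a group of polynomial growth, a free group, or any group with the property of rapid decay, there are at least
`ρ ^ k / k ^ D` closed walks of every even length `k` in the Cayley graph, where `ρ` is its spectral radius.) -/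
theorem result (b : ℕ) (X : Type) (δ : X → ℕ → Option X) (hG : Graph b δ) (x : X) (ρ : ℝ) (hρ : 0 < ρ)
    (hR : ∀ n : ℕ, ((walks b δ (2 * n) x x).card : ℝ) ≤ ρ ^ (2 * n)) (D r : ℕ) (κ : ℤ) (hκ : κ ≠ 0) (B T W U : ℕ) :
    ∃ k₀ : ℕ, ∀ k, k₀ ≤ k → ∀ z : X, ρ ^ k / (k : ℝ) ^ D ≤ (walks b δ k x z).card → ∀ c : ℤ, |c| ≤ B * (b : ℤ) ^ k →
      ∀ L : ℕ, (L : ℝ) ≤ (k : ℝ) ^ T → ∀ (α : Fin L → ℕ) (a h : Fin L → Fin r → ℕ) (θ : Fin L → ℕ → ℂ),
        (∀ l, 1 ≤ α l) → (∀ l i, a l i ≤ b ^ (B * k) ∧ h l i ≤ b ^ (B * k)) → (∀ l n, ‖θ l n‖ ≤ 1) →
        (((walks b δ k x z).filter fun v => ¬ Small B U W (b ^ k) k α a h θ (c + κ * (v : ℕ))).card : ℝ) ≤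
          (walks b δ k x z).card / (k : ℝ) ^ U := by
  obtain ⟨k₀, h0⟩ := Pool.Agent.N625.DY.cls_joint (Pool.Agent.N625.GW.w_cls (δ := δ) ⟨hG.symm, hG.two⟩ x ρ hρ hR D κ hκ) r B T W U
  refine ⟨k₀ + 1, fun k hk z hz c hc L hL α a h θ hα hah hθ => ?_⟩
  have hk1 : (0 : ℝ) < (k : ℝ) ^ D := by
    have : (0 : ℝ) < k := by exact_mod_cast (by omega : 0 < k)
    positivity
  have hz' : ρ ^ k ≤ (k : ℝ) ^ D * (walks b δ k x z).card := by
    rw [div_le_iff₀ hk1, mul_comm] at hz
    exact hz
  have h1 := Pool.Agent.N625.GW.w_count k x z ρ hρ D hz' (fun v => Small B U W (b ^ k) k α a h θ (c + κ * (v : ℕ)))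
    (1 / (k : ℝ) ^ U) (fun p hp => by
      refine le_trans (le_of_eq ?_) (h0 k (by omega) p hp c hc L hL α a h θ hα hah hθ)
      apply sum_congr rfl
      intro v _
      simp only [small_iff])
  rw [mul_one_div] at h1
  exact h1

end Pool.Agent.Results.MP_e6fa8b_nt.WalkShifts

/- Claim text (moved to the shelf by helper675 with helper625's consent):
Proves: Fix a graph δ with digit labels in base b, a vertex x, ρ>0 with at most ρ^(2n) closed walks of length 2n at x, D, r, κ≠0, B, T, W, U. For large k, z with at least ρ^k/k^D walks of length k from x to z, |c|≤B b^k, and at most k^T systems of α_l≥1, linear forms a_{l,i}n+h_{l,i} (i<r, natural coefficients ≤b^(Bk)) and weights θ_l bounded by 1: all but a proportion 1/k^U of the integers v whose k digits label a walk from x to z satisfy |Σ_{n≤X} θ_l(n) ∏_i Λ(a_{l,i}n+h_{l,i}) λ(α_l n+y)| ≤ b^k/k^U for all y within k^W of c+κv, all l and all X≤B b^k/α_l.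
Definitions: Graph: δ x a = some y is the edge x→y labelled by the digit a<b; as many edges x→y as y→x; at least two edges start at each vertex; possibly infinite. walks b δ k x y: the v<b^k whose k digits from the left label a walk from x to y. lam: Liouville function, 0 at m≤0. Small: the displayed bounds.
Relation: Partial answer to Q1 (case ℓ≥1): with one Liouville shift running through e.g. the integers whose digits spell a given element of a free or hyperbolic group (possibly only N^ε elements below N) and all other von Mangoldt and Liouville factors arbitrary and fixed in advance, the correlation is o(N) for almost all shifts. The starting files have automatic sets, random digits, random sums; new: the spectral bound for exponential sums over walks.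
-/
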